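import Pool.Agent.Helper191_Long.Step

set_option autoImplicit false

namespace Pool.Agent.Helper191_Long

open Pool.Agent.Helper191_Fac

theorem sum_periodic (f : ℕ → ℝ) (a b : ℕ) (h : ∀ n, f (n + a) = f n) :
    ∑ n ∈ Finset.range (a * b), f n = b * ∑ n ∈ Finset.range a, f n := by
  have h2 : ∀ b n, f (a * b + n) = f n := by
    intro b
    induction b with
    | zero => intro n; simp
    | succ b ih =>
      intro n
      rw [← ih n, ← h (a * b + n)]
      congr 1
      ring
  induction b with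
  | zero => simp
  | succ b ih =>
    rw [Nat.mul_succ, Finset.sum_range_add, ih]
    simp_rw [h2]
    push_cast
    ring

theorem sum_zmod {n : ℕ} [NeZero n] (f : ZMod n → ℝ) :
    ∑ x : ZMod n, f x = ∑ i ∈ Finset.range n, f (i : ZMod n) := by
  symm
  apply Finset.sum_bij (fun (i : ℕ) _ => (i : ZMod n))
  · intro i _
    exact Finset.mem_univ _
  · intro i hi j hj h
    rw [Finset.mem_range] at hi hj
    have := congrArg ZMod.val h
    simpa [ZMod.val_natCast, Nat.mod_eq_of_lt hi, Nat.mod_eq_of_lt hj] using this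
  · intro x _
    exact ⟨x.val, Finset.mem_range.mpr (ZMod.val_lt x), ZMod.natCast_zmod_val x⟩
  · intro i _
    rfl

section Avg
variable {p M : ℕ} [hp : Fact p.Prime]

theorem sum_class (f : ZMod (p ^ M) → ℝ) (hf : ∀ x, 0 ≤ f x) {D : ℕ} (hD : D ≤ M) (c : ℕ) :
    (p : ℝ) ^ D * ∑ z ∈ Finset.univ.filter (fun z : ZMod (p ^ M) => z.val % p ^ D = c), f z
      ≤ ∑ t : ZMod (p ^ M), f ((c : ZMod (p ^ M)) + (p : ZMod (p ^ M)) ^ D * t) := by
  have hp0 : 0 < p := hp.out.pos
  rw [sum_zmod (fun t => f ((c : ZMod (p ^ M)) + (p : ZMod (p ^ M)) ^ D * t))]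
  have e : p ^ M = p ^ (M - D) * p ^ D := by
    rw [← pow_add]
    congr 1
    omega
  have hper := sum_periodic
    (fun n : ℕ => f ((c : ZMod (p ^ M)) + (p : ZMod (p ^ M)) ^ D * (n : ZMod (p ^ M))))
    (p ^ (M - D)) (p ^ D) (by
      intro n
      congr 1
      push_cast
      have : (p : ZMod (p ^ M)) ^ D * (p : ZMod (p ^ M)) ^ (M - D) = 0 := by
        rw [← pow_add]
        exact pow_zero_of_le (by omega)
      linear_combination this)
  have hr : Finset.range (p ^ M) = Finset.range (p ^ (M - D) * p ^ D) := by rw [← e]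
  rw [hr, hper]
  push_cast
  apply mul_le_mul_of_nonneg_left _ (by positivity)
  have hz : ∀ z ∈ Finset.univ.filter (fun z : ZMod (p ^ M) => z.val % p ^ D = c),
      f z = f ((c : ZMod (p ^ M)) + (p : ZMod (p ^ M)) ^ D * ((z.val / p ^ D : ℕ) : ZMod (p ^ M))) := by
    intro z hz
    rw [Finset.mem_filter] at hz
    congr 1
    have h1 : z.val = c + p ^ D * (z.val / p ^ D) := by
      conv_lhs => rw [← Nat.mod_add_div z.val (p ^ D), hz.2]
    have h2 := congrArg (fun n : ℕ => (n : ZMod (p ^ M))) h1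
    rw [ZMod.natCast_zmod_val] at h2
    push_cast at h2
    exact h2
  rw [Finset.sum_congr rfl hz]
  have hinj : Set.InjOn (fun z : ZMod (p ^ M) => z.val / p ^ D)
      (Finset.univ.filter (fun z : ZMod (p ^ M) => z.val % p ^ D = c) : Finset (ZMod (p ^ M))) := by
    intro x hx y hy hxy
    rw [Finset.mem_coe, Finset.mem_filter] at hx hy
    change x.val / p ^ D = y.val / p ^ D at hxy
    apply ZMod.val_injective
    rw [← Nat.mod_add_div x.val (p ^ D), ← Nat.mod_add_div y.val (p ^ D), hx.2, hy.2, hxy]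
  rw [← Finset.sum_image (f := fun i : ℕ => f ((c : ZMod (p ^ M)) +
    (p : ZMod (p ^ M)) ^ D * (i : ZMod (p ^ M)))) hinj]
  apply Finset.sum_le_sum_of_subset_of_nonneg
  · intro i hi
    rw [Finset.mem_image] at hi
    obtain ⟨z, _, rfl⟩ := hi
    rw [Finset.mem_range]
    apply Nat.div_lt_of_lt_mul
    exact ((ZMod.val_lt z).trans_eq e).trans_eq (mul_comm _ _)
  · intro i _ _
    exact hf _

theorem sum_unit (f : ZMod (p ^ M) → ℝ) (hf : ∀ x, 0 ≤ f x) {v : ℕ} (hv : v < M) :
    (p : ℝ) ^ v * ∑ b ∈ Finset.univ.filter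
        (fun b : ZMod (p ^ M) => b ≠ 0 ∧ padicValNat p b.val = v), f b
      ≤ ∑ β : (ZMod (p ^ M))ˣ, f ((p : ZMod (p ^ M)) ^ v * (β : ZMod (p ^ M))) := by
  classical
  have hp0 : 0 < p := hp.out.pos
  have h1 : ∑ β : (ZMod (p ^ M))ˣ, f ((p : ZMod (p ^ M)) ^ v * (β : ZMod (p ^ M)))
      = ∑ x : ZMod (p ^ M), if IsUnit x then f ((p : ZMod (p ^ M)) ^ v * x) else 0 := by
    rw [← Finset.sum_filter]
    apply Finset.sum_bij (fun (β : (ZMod (p ^ M))ˣ) _ => (β : ZMod (p ^ M)))
    · intro β _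
      simp
    · intro β _ β' _ h
      exact Units.ext h
    · intro x hx
      rw [Finset.mem_filter] at hx
      exact ⟨hx.2.unit, Finset.mem_univ _, rfl⟩
    · intro β _
      rfl
  rw [h1, sum_zmod]
  have e : p ^ M = p ^ (M - v) * p ^ v := by
    rw [← pow_add]
    congr 1
    omega
  have hunit : ∀ n : ℕ, IsUnit ((n : ℕ) : ZMod (p ^ M)) ↔ ¬ p ∣ n := by
    intro n
    constructor
    · intro h hd
      rw [ZMod.isUnit_iff_coprime] at h
      have h3 : p ∣ Nat.gcd n (p ^ M) := Nat.dvd_gcd hd (dvd_pow_self p (by omega))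
      rw [h] at h3
      exact hp.out.one_lt.ne' (Nat.dvd_one.mp h3)
    · exact unit_natCast
  have hper := sum_periodic
    (fun n : ℕ => if IsUnit ((n : ℕ) : ZMod (p ^ M)) then
      f ((p : ZMod (p ^ M)) ^ v * (n : ZMod (p ^ M))) else 0)
    (p ^ (M - v)) (p ^ v) (by
      intro n
      have e2 : p ∣ n + p ^ (M - v) ↔ p ∣ n :=
        (Nat.dvd_add_iff_left (dvd_pow_self p (by omega))).symm
      have e3 : IsUnit ((n + p ^ (M - v) : ℕ) : ZMod (p ^ M)) ↔
          IsUnit ((n : ℕ) : ZMod (p ^ M)) := by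
        rw [hunit, hunit, e2]
      by_cases hn : IsUnit ((n : ℕ) : ZMod (p ^ M))
      swap
      · rw [if_neg hn, if_neg (fun h => hn (e3.mp h))]
      rw [if_pos hn, if_pos (e3.mpr hn)]
      congr 1
      push_cast
      have : (p : ZMod (p ^ M)) ^ v * (p : ZMod (p ^ M)) ^ (M - v) = 0 := by
        rw [← pow_add]
        exact pow_zero_of_le (by omega)
      linear_combination this)
  have hr : Finset.range (p ^ M) = Finset.range (p ^ (M - v) * p ^ v) := by rw [← e]
  rw [hr, hper]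
  push_cast
  apply mul_le_mul_of_nonneg_left _ (by positivity)
  set s := Finset.univ.filter (fun b : ZMod (p ^ M) => b ≠ 0 ∧ padicValNat p b.val = v) with hs
  have hval : ∀ b ∈ s, b.val = p ^ v * (b.val / p ^ v) ∧ ¬ p ∣ b.val / p ^ v := by
    intro b hb
    rw [hs, Finset.mem_filter] at hb
    have h0 : b.val ≠ 0 := by
      rw [Ne, ZMod.val_eq_zero]
      exact hb.2.1
    have h2 : p ^ v ∣ b.val := by
      rw [← hb.2.2]
      exact pow_padicValNat_dvd
    have h3 : b.val = p ^ v * (b.val / p ^ v) := (Nat.mul_div_cancel' h2).symm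
    refine ⟨h3, fun h => ?_⟩
    have h4 : p ^ (v + 1) ∣ b.val := by
      rw [h3, pow_succ]
      exact mul_dvd_mul_left _ h
    rw [← hb.2.2] at h4
    exact pow_succ_padicValNat_not_dvd h0 h4
  have hz : ∀ b ∈ s, f b = (fun n : ℕ => if IsUnit ((n : ℕ) : ZMod (p ^ M)) then
      f ((p : ZMod (p ^ M)) ^ v * (n : ZMod (p ^ M))) else 0) (b.val / p ^ v) := by
    intro b hb
    obtain ⟨h2, h3⟩ := hval b hb
    simp only
    rw [if_pos ((hunit _).mpr h3)]
    congr 1
    have h4 := congrArg (fun n : ℕ => (n : ZMod (p ^ M))) h2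
    rw [ZMod.natCast_zmod_val] at h4
    push_cast at h4
    exact h4
  rw [Finset.sum_congr rfl hz]
  have hinj : Set.InjOn (fun b : ZMod (p ^ M) => b.val / p ^ v) (s : Set (ZMod (p ^ M))) := by
    intro x hx y hy hxy
    change x.val / p ^ v = y.val / p ^ v at hxy
    apply ZMod.val_injective
    rw [(hval x hx).1, (hval y hy).1, hxy]
  rw [← Finset.sum_image (g := fun b : ZMod (p ^ M) => b.val / p ^ v)
    (f := fun n : ℕ => if IsUnit ((n : ℕ) : ZMod (p ^ M)) then
      f ((p : ZMod (p ^ M)) ^ v * (n : ZMod (p ^ M))) else 0) hinj]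
  apply Finset.sum_le_sum_of_subset_of_nonneg
  · intro i hi
    rw [Finset.mem_image] at hi
    obtain ⟨z, _, rfl⟩ := hi
    rw [Finset.mem_range]
    apply Nat.div_lt_of_lt_mul
    exact ((ZMod.val_lt z).trans_eq e).trans_eq (mul_comm _ _)
  · intro i _ _
    split_ifs
    · exact hf _
    · exact le_rfl

end Avg

end Pool.Agent.Helper191_Long
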