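import Pool.Agent.Helper191_Long.Avg

set_option autoImplicit false

namespace Pool.Agent.Helper191_Long

open Pool.Agent.Helper191_Fac

/-- The valuation of the product of the first `k` jumps after `c`. -/
def V (p c k : ℕ) : ℕ := ∑ i ∈ Finset.range k, padicValNat p (c + p * (i + 1))

theorem V_mono (p c : ℕ) {j k : ℕ} (h : j ≤ k) : V p c j ≤ V p c k := by
  unfold V
  exact Finset.sum_le_sum_of_subset (Finset.range_mono h)

theorem V_succ (p c k : ℕ) : V p c (k + 1) = V p (c + p) k + padicValNat p (c + p) := by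
  unfold V
  rw [Finset.sum_range_succ']
  congr 1
  · apply Finset.sum_congr rfl
    intro i _
    congr 1
    ring
  · simp

section Bound
variable {p : ℕ} [hp : Fact p.Prime]

theorem V_le {c k D : ℕ} (hc : p ∣ c) (hck : c + p * k < p ^ D) :
    V p c k ≤ k + k / (p - 1) + D := by
  obtain ⟨c1, rfl⟩ := hc
  have hp0 : 0 < p := hp.out.pos
  have hp2 : 2 ≤ p := hp.out.two_le
  have h1 : V p (p * c1) k = k + ∑ i ∈ Finset.range k, padicValNat p (c1 + i + 1) := by
    unfold V
    have : ∀ i ∈ Finset.range k, padicValNat p (p * c1 + p * (i + 1))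
        = 1 + padicValNat p (c1 + i + 1) := by
      intro i _
      rw [show p * c1 + p * (i + 1) = p * (c1 + i + 1) by ring,
        padicValNat.mul hp0.ne' (by omega), padicValNat_self]
    rw [Finset.sum_congr rfl this, Finset.sum_add_distrib]
    simp
  have h2 : ∀ k, ∑ i ∈ Finset.range k, padicValNat p (c1 + i + 1)
      = padicValNat p ((c1 + 1).ascFactorial k) := by
    intro k
    induction k with
    | zero => simp
    | succ k ih =>
      rw [Finset.sum_range_succ, ih, Nat.ascFactorial_succ, padicValNat.mul (by omega)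
        (Nat.ascFactorial_pos _ _).ne', add_comm]
      congr 2
      ring
  rw [h1, h2, Nat.ascFactorial_eq_factorial_mul_choose, padicValNat.mul
    (Nat.factorial_ne_zero _) (Nat.choose_pos (by omega)).ne']
  have h3 : padicValNat p k.factorial ≤ k / (p - 1) := by
    rw [Nat.le_div_iff_mul_le (by omega), mul_comm, sub_one_mul_padicValNat_factorial]
    omega
  have h4 : padicValNat p ((c1 + k).choose k) ≤ D := by
    rw [← Nat.factorization_def _ hp.out]
    refine Nat.factorization_choose_le_log.trans ?_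
    have h5 : c1 + k < p ^ D := by
      refine lt_of_le_of_lt ?_ hck
      calc c1 + k ≤ p * (c1 + k) := Nat.le_mul_of_pos_left _ hp0
        _ = p * c1 + p * k := by ring
    by_cases h6 : c1 + k = 0
    · rw [h6]
      simp
    · exact (Nat.log_lt_of_lt_pow h6 h5).le
  omega

variable {M : ℕ} {ι : Type*} [Fintype ι]

theorem T_nonneg (A : ι → Finset ℕ) (k v D : ℕ) (c : ZMod (p ^ M)) : 0 ≤ T A k v D c := by
  unfold T
  exact Finset.sum_nonneg fun _ _ => Finset.sum_nonneg fun _ _ => w_nonneg _ _ _ _ _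

theorem T_le (A : ι → Finset ℕ) (hq : 0 < Fintype.card ι)
    (hinj : ∀ i j, i ≠ j → ¬ ((p : ℤ) ^ 2 ∣ sA (A i) (-(p : ℤ)) - sA (A j) (-(p : ℤ))))
    (D : ℕ) : ∀ (k v c : ℕ), p ∣ c →
    (∀ j < k, padicValNat p (c + p * (j + 1)) < D ∧ v + V p c j + D + 1 ≤ M) →
    T A k v D (c : ZMod (p ^ M)) ≤ ((p ^ M : ℕ) : ℝ) ^ 2 / (Fintype.card ι : ℝ) ^ k := by
  intro k
  induction k with
  | zero =>
    intro v c _ _
    unfold T
    simp only [w, Finset.sum_const, Finset.card_univ, ZMod.card, nsmul_eq_mul, mul_one, pow_zero,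
      div_one]
    rw [sq]
    apply mul_le_mul_of_nonneg_left _ (by positivity)
    have : Fintype.card (ZMod (p ^ M))ˣ ≤ Fintype.card (ZMod (p ^ M)) :=
      Fintype.card_le_of_injective _ Units.val_injective
    rw [ZMod.card] at this
    exact_mod_cast this
  | succ k ih =>
    intro v c hc h
    obtain ⟨h0, h1⟩ := h 0 (by omega)
    rw [zero_add, mul_one] at h0
    have hv : v + D + 1 ≤ M := by
      have : V p c 0 = 0 := by simp [V]
      omega
    set s := padicValNat p (c + p) with hs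
    have hp0 : 0 < p := hp.out.pos
    have hcp : c + p ≠ 0 := by omega
    have hdvd : p ∣ c + p := (Nat.dvd_add_iff_left (dvd_refl p)).mp hc
    have hs1 : 1 ≤ s := one_le_padicValNat_of_dvd hcp hdvd
    have hsd : p ^ s ∣ c + p := pow_padicValNat_dvd
    obtain ⟨c', hc'⟩ := hsd
    have hc'p : ¬ p ∣ c' := by
      intro h
      have : p ^ (s + 1) ∣ c + p := by
        rw [hc', pow_succ]
        exact mul_dvd_mul_left _ h
      exact pow_succ_padicValNat_not_dvd hcp this
    obtain ⟨c'', hc''⟩ := hc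
    have hT := T_step (M := M) A hq hinj k v D s hs1 h0 hv (c : ZMod (p ^ M)) (c' : ZMod (p ^ M))
      (c'' : ZMod (p ^ M)) (by rw [hc'']; push_cast; ring) (unit_natCast hc'p) (by
        have := congrArg (fun n : ℕ => (n : ZMod (p ^ M))) hc'
        push_cast at this
        exact this)
    rw [hT]
    have hcast : (c : ZMod (p ^ M)) + (p : ZMod (p ^ M)) = ((c + p : ℕ) : ZMod (p ^ M)) := by
      push_cast
      ring
    rw [hcast]
    have hih := ih (v + s) (c + p) hdvd (by
      intro j hj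
      obtain ⟨h2, h3⟩ := h (j + 1) (by omega)
      refine ⟨?_, ?_⟩
      · rw [show c + p + p * (j + 1) = c + p * (j + 1 + 1) by ring]
        exact h2
      · rw [V_succ] at h3
        omega)
    calc T A k (v + s) D ((c + p : ℕ) : ZMod (p ^ M)) / (Fintype.card ι : ℝ)
        ≤ (((p ^ M : ℕ) : ℝ) ^ 2 / (Fintype.card ι : ℝ) ^ k) / (Fintype.card ι : ℝ) := by
          apply div_le_div_of_nonneg_right hih (by positivity)
      _ = _ := by
        rw [div_div, ← pow_succ]

/-- The sum of `w` over all frequencies of valuation `v`. -/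
noncomputable def W (A : ι → Finset ℕ) (k v : ℕ) (z : ZMod (p ^ M)) : ℝ :=
  ∑ b ∈ Finset.univ.filter (fun b : ZMod (p ^ M) => b ≠ 0 ∧ padicValNat p b.val = v),
    w p A k b z

theorem W_nonneg (A : ι → Finset ℕ) (k v : ℕ) (z : ZMod (p ^ M)) : 0 ≤ W A k v z := by
  unfold W
  exact Finset.sum_nonneg fun b _ => w_nonneg p A k b z

theorem W_anti (A : ι → Finset ℕ) {k k' : ℕ} (h : k ≤ k') (v : ℕ) (z : ZMod (p ^ M)) :
    W A k' v z ≤ W A k v z := by
  unfold W
  exact Finset.sum_le_sum fun b _ => w_anti p A h b z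

theorem class_le (A : ι → Finset ℕ) {D : ℕ} (hD : D ≤ M) {v : ℕ} (hv : v < M) (k c : ℕ) :
    (p : ℝ) ^ v * ((p : ℝ) ^ D *
      ∑ z ∈ Finset.univ.filter (fun z : ZMod (p ^ M) => z.val % p ^ D = c), W A k v z)
      ≤ T A k v D (c : ZMod (p ^ M)) := by
  have h1 := sum_class (p := p) (M := M) (fun z => W A k v z) (fun z => W_nonneg A k v z) hD c
  refine (mul_le_mul_of_nonneg_left h1 (by positivity)).trans ?_
  rw [Finset.mul_sum]
  unfold T
  apply Finset.sum_le_sum
  intro t _
  exact sum_unit (fun b => w p A k b _) (fun b => w_nonneg _ _ _ _ _) hv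

theorem avg (A : ι → Finset ℕ) (hq : 0 < Fintype.card ι)
    (hinj : ∀ i j, i ≠ j → ¬ ((p : ℤ) ^ 2 ∣ sA (A i) (-(p : ℤ)) - sA (A j) (-(p : ℤ))))
    (k v D : ℕ) (hD : 1 ≤ D) (h : v + k + k / (p - 1) + 2 * D + 1 ≤ M) :
    ∑ z ∈ Finset.univ.filter
      (fun z : ZMod (p ^ M) => p ∣ z.val ∧ z.val % p ^ D + p * k < p ^ D), W A k v z
      ≤ (p : ℝ) ^ (2 * M - v) / (Fintype.card ι : ℝ) ^ k := by
  have hp0 : 0 < p := hp.out.pos
  have hpR : (0 : ℝ) < p := by exact_mod_cast hp0
  have hnn := Nat.zero_le (k / (p - 1))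
  set s := Finset.univ.filter
      (fun z : ZMod (p ^ M) => p ∣ z.val ∧ z.val % p ^ D + p * k < p ^ D) with hs
  set t := (Finset.range (p ^ D)).filter (fun c => p ∣ c ∧ c + p * k < p ^ D) with ht
  have hmaps : ∀ z ∈ s, z.val % p ^ D ∈ t := by
    intro z hz
    rw [hs, Finset.mem_filter] at hz
    rw [ht, Finset.mem_filter, Finset.mem_range]
    refine ⟨Nat.mod_lt _ (by positivity), ?_, hz.2.2⟩
    exact (Nat.dvd_mod_iff (dvd_pow_self p (by omega))).mpr hz.2.1
  rw [← Finset.sum_fiberwise_of_maps_to hmaps]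
  have hcls : ∀ c ∈ t, ∑ z ∈ s.filter (fun z => z.val % p ^ D = c), W A k v z
      ≤ ((p ^ M : ℕ) : ℝ) ^ 2 / (Fintype.card ι : ℝ) ^ k / (p ^ v * p ^ D) := by
    intro c hc
    rw [ht, Finset.mem_filter, Finset.mem_range] at hc
    have h1 : ∑ z ∈ s.filter (fun z => z.val % p ^ D = c), W A k v z
        ≤ ∑ z ∈ Finset.univ.filter (fun z : ZMod (p ^ M) => z.val % p ^ D = c), W A k v z := by
      apply Finset.sum_le_sum_of_subset_of_nonneg
      · intro z hz
        rw [Finset.mem_filter] at hz ⊢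
        exact ⟨Finset.mem_univ _, hz.2⟩
      · intro z _ _
        exact W_nonneg A k v z
    refine h1.trans ?_
    rw [le_div_iff₀ (by positivity)]
    have h2 := class_le (p := p) (M := M) A (D := D) (by omega) (v := v) (by omega) k c
    have h3 := T_le (M := M) A hq hinj D k v c hc.2.1 (by
      intro j hj
      constructor
      · rw [← Nat.pow_lt_pow_iff_right hp.out.one_lt]
        refine lt_of_le_of_lt (Nat.le_of_dvd (by positivity) pow_padicValNat_dvd) ?_
        refine lt_of_le_of_lt ?_ hc.2.2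
        have : p * (j + 1) ≤ p * k := Nat.mul_le_mul_left _ hj
        omega
      · have h4 := V_mono p c (show j ≤ k by omega)
        have h5 := V_le (D := D) hc.2.1 hc.2.2
        omega)
    calc _ = (p : ℝ) ^ v * ((p : ℝ) ^ D *
      ∑ z ∈ Finset.univ.filter (fun z : ZMod (p ^ M) => z.val % p ^ D = c), W A k v z) := by ring
      _ ≤ _ := h2.trans h3
  refine (Finset.sum_le_sum hcls).trans ?_
  rw [Finset.sum_const, nsmul_eq_mul]
  have hcard : (t.card : ℝ) ≤ (p : ℝ) ^ D := by
    have : t.card ≤ p ^ D := by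
      rw [ht]
      exact (Finset.card_filter_le _ _).trans (by rw [Finset.card_range])
    exact_mod_cast this
  have hqR : (0 : ℝ) < Fintype.card ι := by exact_mod_cast hq
  calc (t.card : ℝ) * (((p ^ M : ℕ) : ℝ) ^ 2 / (Fintype.card ι : ℝ) ^ k / (p ^ v * p ^ D))
      ≤ (p : ℝ) ^ D * (((p ^ M : ℕ) : ℝ) ^ 2 / (Fintype.card ι : ℝ) ^ k / (p ^ v * p ^ D)) := by
        apply mul_le_mul_of_nonneg_right hcard (by positivity)
    _ = (p : ℝ) ^ (2 * M - v) / (Fintype.card ι : ℝ) ^ k := by
      have e : (p : ℝ) ^ (2 * M) = (p : ℝ) ^ (2 * M - v) * (p : ℝ) ^ v := by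
        rw [← pow_add]
        congr 1
        omega
      push_cast
      rw [← pow_mul, mul_comm M 2, e]
      field_simp

end Bound

end Pool.Agent.Helper191_Long
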