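import Pool.Agent.Helper191_Long.Ring

set_option autoImplicit false

namespace Pool.Agent.Helper191_Long

open Pool.Agent.Helper191_Fac

section Char
variable {n : ℕ} [NeZero n]

/-- The standard additive character. -/
noncomputable def chi (x : ZMod n) : ℂ := ZMod.stdAddChar x

theorem chi_zero : chi (0 : ZMod n) = 1 := by simp [chi]

theorem chi_add (x y : ZMod n) : chi (x + y) = chi x * chi y := by
  simp [chi, AddChar.map_add_eq_mul]

theorem norm_chi (x : ZMod n) : ‖chi x‖ = 1 := by
  simp [chi]

theorem conj_chi (x : ZMod n) : (starRingEnd ℂ) (chi x) = chi (-x) := by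
  unfold chi
  rw [AddChar.map_neg_eq_conj]

theorem sum_chi (b : ZMod n) : ∑ x : ZMod n, chi (x * b) = if b = 0 then (n : ℂ) else 0 := by
  unfold chi
  have := AddChar.sum_mulShift (R := ZMod n) (R' := ℂ) (ψ := ZMod.stdAddChar) b
    (ZMod.isPrimitive_stdAddChar n)
  rw [this, ZMod.card]
  split_ifs <;> simp

/-- Parseval for distinct frequencies. -/
theorem parseval {ι : Type*} [Fintype ι] (κ : ι → ZMod n) (hκ : Function.Injective κ)
    (z : ι → ℂ) (hz : ∀ i, ‖z i‖ = 1) :
    ∑ g : ZMod n, ‖∑ i, z i * chi (g * κ i)‖ ^ 2 = (n : ℝ) * Fintype.card ι := by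
  classical
  have h : (((∑ g : ZMod n, ‖∑ i, z i * chi (g * κ i)‖ ^ 2 : ℝ)) : ℂ)
      = (((n : ℝ) * Fintype.card ι : ℝ) : ℂ) := by
    push_cast
    have h1 : ∀ g : ZMod n, ((‖∑ i, z i * chi (g * κ i)‖ : ℂ)) ^ 2
        = ∑ i, ∑ j, z i * (starRingEnd ℂ) (z j) * chi (g * (κ i - κ j)) := by
      intro g
      rw [← Complex.mul_conj', map_sum, Finset.sum_mul_sum]
      apply Finset.sum_congr rfl
      intro i _
      apply Finset.sum_congr rfl
      intro j _
      rw [map_mul, conj_chi, show g * (κ i - κ j) = g * κ i + -(g * κ j) by ring, chi_add]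
      ring
    simp_rw [h1]
    rw [Finset.sum_comm]
    have h2 : ∀ i : ι, ∑ g : ZMod n, ∑ j, z i * (starRingEnd ℂ) (z j) * chi (g * (κ i - κ j))
        = (n : ℂ) := by
      intro i
      rw [Finset.sum_comm]
      have h3 : ∀ j : ι, ∑ g : ZMod n, z i * (starRingEnd ℂ) (z j) * chi (g * (κ i - κ j))
          = if j = i then (n : ℂ) else 0 := by
        intro j
        rw [← Finset.mul_sum, sum_chi]
        by_cases hj : j = i
        · subst hj
          rw [if_pos (sub_self _), if_pos rfl, Complex.mul_conj', hz]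
          simp
        · rw [if_neg hj, if_neg, mul_zero]
          intro h
          exact hj (hκ (sub_eq_zero.mp h).symm)
      simp_rw [h3]
      simp
    simp_rw [h2]
    simp
    ring
  exact_mod_cast h

variable {ι : Type*} [Fintype ι]

/-- The character sum of one block. -/
noncomputable def F (A : ι → Finset ℕ) (b z : ZMod n) : ℂ := ∑ i, chi (b * sA (A i) z)

/-- The normalised square of the character sum of one block. -/
noncomputable def phi (A : ι → Finset ℕ) (b z : ZMod n) : ℝ :=
  ‖F A b z‖ ^ 2 / (Fintype.card ι : ℝ) ^ 2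

theorem phi_nonneg (A : ι → Finset ℕ) (b z : ZMod n) : 0 ≤ phi A b z := by
  unfold phi
  positivity

theorem norm_F_le (A : ι → Finset ℕ) (b z : ZMod n) : ‖F A b z‖ ≤ Fintype.card ι := by
  unfold F
  refine (norm_sum_le _ _).trans ?_
  simp [norm_chi]

theorem phi_le_one (A : ι → Finset ℕ) (b z : ZMod n) : phi A b z ≤ 1 := by
  unfold phi
  apply div_le_one_of_le₀ _ (by positivity)
  exact pow_le_pow_left₀ (norm_nonneg _) (norm_F_le A b z) 2

theorem phi_congr (A : ι → Finset ℕ) (b z z' : ZMod n) (h : b * (z - z') = 0) :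
    phi A b z = phi A b z' := by
  unfold phi F
  simp_rw [sA_congr _ b z z' h]

/-- The normalised square of the character sum of `k` consecutive blocks of length `p`. -/
noncomputable def w (p : ℕ) (A : ι → Finset ℕ) : ℕ → ZMod n → ZMod n → ℝ
  | 0, _, _ => 1
  | k + 1, b, z => phi A b z * w p A k (b * asc z p) (z + p)

theorem w_nonneg (p : ℕ) (A : ι → Finset ℕ) (k : ℕ) (b z : ZMod n) : 0 ≤ w p A k b z := by
  induction k generalizing b z with
  | zero => simp [w]
  | succ k ih => exact mul_nonneg (phi_nonneg _ _ _) (ih _ _)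

theorem w_le_one (p : ℕ) (A : ι → Finset ℕ) (k : ℕ) (b z : ZMod n) : w p A k b z ≤ 1 := by
  induction k generalizing b z with
  | zero => simp [w]
  | succ k ih =>
    exact mul_le_one₀ (phi_le_one _ _ _) (w_nonneg _ _ _ _ _) (ih _ _)

theorem w_anti (p : ℕ) (A : ι → Finset ℕ) {k k' : ℕ} (hk : k ≤ k') (b z : ZMod n) :
    w p A k' b z ≤ w p A k b z := by
  induction k generalizing k' b z with
  | zero =>
    simp only [w]
    exact w_le_one _ _ _ _ _
  | succ k ih =>
    obtain ⟨k', rfl⟩ : ∃ j, k' = j + 1 := ⟨k' - 1, by omega⟩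
    simp only [w]
    exact mul_le_mul_of_nonneg_left (ih (by omega) _ _) (phi_nonneg _ _ _)

theorem w_congr (p : ℕ) (A : ι → Finset ℕ) (k : ℕ) (b z z' : ZMod n)
    (h : b * (z - z') = 0) : w p A k b z = w p A k b z' := by
  induction k generalizing b z z' with
  | zero => simp [w]
  | succ k ih =>
    simp only [w]
    rw [phi_congr A b z z' h, asc_congr p b z z' h]
    congr 1
    apply ih
    calc b * asc z' p * (z + p - (z' + p)) = (b * (z - z')) * asc z' p := by ring
      _ = 0 := by rw [h, zero_mul]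

end Char

end Pool.Agent.Helper191_Long
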