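import Pool.Agent.Helper191_Long.Bound

set_option autoImplicit false

namespace Pool.Agent.Helper191_Long

open Pool.Agent.Helper191_Fac

theorem sum_periodic_complex (f : ℕ → ℂ) (a b : ℕ) (h : ∀ n, f (n + a) = f n) :
    ∑ n ∈ Finset.range (a * b), f n = b * ∑ n ∈ Finset.range a, f n := by
  have h2 : ∀ b n, f (a * b + n) = f n := by
    intro b
    induction b with
    | zero => intro n; simp
    | succ b ih =>
      intro n
      rw [← ih n, ← h (a * b + n)]
      congr 1
      ring
  induction b with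
  | zero => simp
  | succ b ih =>
    rw [Nat.mul_succ, Finset.sum_range_add, ih]
    simp_rw [h2]
    push_cast
    ring

theorem sum_zmod_complex {n : ℕ} [NeZero n] (f : ZMod n → ℂ) :
    ∑ x : ZMod n, f x = ∑ i ∈ Finset.range n, f (i : ZMod n) := by
  symm
  apply Finset.sum_bij (fun (i : ℕ) _ => (i : ZMod n))
  · intro i _
    exact Finset.mem_univ _
  · intro i hi j hj h
    rw [Finset.mem_range] at hi hj
    have := congrArg ZMod.val h
    simpa [ZMod.val_natCast, Nat.mod_eq_of_lt hi, Nat.mod_eq_of_lt hj] using this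
  · intro x _
    exact ⟨x.val, Finset.mem_range.mpr (ZMod.val_lt x), ZMod.natCast_zmod_val x⟩
  · intro i _
    rfl

section Hat
variable {n : ℕ} [NeZero n]

/-- The Fourier transform. -/
noncomputable def hat (f : ZMod n → ℂ) (b : ZMod n) : ℂ := ∑ v, f v * chi (b * v)

theorem fourier_triple (f g h : ZMod n → ℂ) (Y : ZMod n)
    (hno : ∀ x a b, x + a + b = Y → f x * g a * h b = 0) :
    ∑ β : ZMod n, chi (-(β * Y)) * (hat f β * hat g β * hat h β) = 0 := by
  have h1 : ∀ β : ZMod n, chi (-(β * Y)) * (hat f β * hat g β * hat h β)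
      = ∑ x, ∑ a, ∑ b, (f x * g a * h b) * chi (β * (x + a + b - Y)) := by
    intro β
    unfold hat
    rw [Finset.sum_mul_sum, Finset.sum_mul, Finset.mul_sum]
    apply Finset.sum_congr rfl
    intro x _
    rw [Finset.sum_mul, Finset.mul_sum]
    apply Finset.sum_congr rfl
    intro a _
    rw [Finset.mul_sum, Finset.mul_sum]
    apply Finset.sum_congr rfl
    intro b _
    rw [show β * (x + a + b - Y) = β * x + β * a + β * b + -(β * Y) by ring, chi_add, chi_add,
      chi_add]
    ring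
  simp_rw [h1]
  rw [Finset.sum_comm]
  apply Finset.sum_eq_zero
  intro x _
  rw [Finset.sum_comm]
  apply Finset.sum_eq_zero
  intro a _
  rw [Finset.sum_comm]
  apply Finset.sum_eq_zero
  intro b _
  rw [← Finset.mul_sum, sum_chi]
  split_ifs with h2
  · rw [hno x a b (sub_eq_zero.mp h2), zero_mul]
  · rw [mul_zero]

variable {ι : Type*} [Fintype ι]

/-- The number of ways to obtain a given value from `K` consecutive blocks. -/
noncomputable def cnt (p : ℕ) (A : ι → Finset ℕ) : ℕ → ZMod n → ZMod n → ℂ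
  | 0, _, v => if v = 0 then 1 else 0
  | K + 1, z, v => ∑ i, ∑ u, if sA (A i) z + asc z p * u = v then cnt p A K (z + p) u else 0

theorem hat_cnt_zero (p : ℕ) (A : ι → Finset ℕ) (z b : ZMod n) :
    hat (cnt p A 0 z) b = 1 := by
  unfold hat
  simp only [cnt]
  rw [Finset.sum_eq_single 0]
  · simp [chi_zero]
  · intro v _ hv
    simp [hv]
  · intro h
    exact absurd (Finset.mem_univ _) h

theorem hat_cnt_succ (p : ℕ) (A : ι → Finset ℕ) (K : ℕ) (z b : ZMod n) :
    hat (cnt p A (K + 1) z) b = F A b z * hat (cnt p A K (z + (p : ZMod n))) (b * asc z p) := by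
  unfold hat F
  simp only [cnt]
  rw [Finset.sum_mul]
  have h1 : ∀ v : ZMod n, (∑ i, ∑ u, if sA (A i) z + asc z p * u = v then
      cnt p A K (z + (p : ZMod n)) u else 0) * chi (b * v)
      = ∑ i, ∑ u, (if sA (A i) z + asc z p * u = v then
          cnt p A K (z + (p : ZMod n)) u * chi (b * v) else 0) := by
    intro v
    rw [Finset.sum_mul]
    apply Finset.sum_congr rfl
    intro i _
    rw [Finset.sum_mul]
    apply Finset.sum_congr rfl
    intro u _
    split_ifs <;> simp
  simp_rw [h1]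
  rw [Finset.sum_comm]
  apply Finset.sum_congr rfl
  intro i _
  rw [Finset.sum_comm, Finset.mul_sum]
  apply Finset.sum_congr rfl
  intro u _
  rw [Finset.sum_ite_eq]
  simp only [Finset.mem_univ, if_true]
  rw [mul_add, chi_add, show b * (asc z p * u) = b * asc z p * u by ring]
  ring

theorem norm_hat_cnt (p : ℕ) (A : ι → Finset ℕ) (hq : 0 < Fintype.card ι) (K : ℕ)
    (z b : ZMod n) :
    ‖hat (cnt p A K z) b‖ ^ 2 = (Fintype.card ι : ℝ) ^ (2 * K) * w p A K b z := by
  induction K generalizing z b with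
  | zero => simp [hat_cnt_zero, w]
  | succ K ih =>
    rw [hat_cnt_succ, norm_mul, mul_pow, ih]
    simp only [w, phi]
    have : (Fintype.card ι : ℝ) ≠ 0 := by
      have : (0 : ℝ) < Fintype.card ι := by exact_mod_cast hq
      exact this.ne'
    rw [show 2 * (K + 1) = 2 * K + 2 by ring, pow_add]
    field_simp

theorem hat_cnt_at_zero (p : ℕ) (A : ι → Finset ℕ) (K : ℕ) (z : ZMod n) :
    hat (cnt p A K z) 0 = (Fintype.card ι : ℂ) ^ K := by
  induction K generalizing z with
  | zero => simp [hat_cnt_zero]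
  | succ K ih =>
    rw [hat_cnt_succ, zero_mul, ih]
    unfold F
    simp [chi_zero]
    ring

end Hat

section Cover
variable {p M : ℕ} [hp : Fact p.Prime] {ι : Type*} [Fintype ι]

theorem low_sum {e : ℕ} (he : e ≤ M) (β : ZMod (p ^ M)) (hβ : p ^ (M - e) ∣ β.val)
    (h0 : β ≠ 0) : ∑ r ∈ Finset.range (p ^ e), chi (β * (r : ZMod (p ^ M))) = 0 := by
  have hz : β * (p : ZMod (p ^ M)) ^ e = 0 := by
    obtain ⟨j, hj⟩ := hβ
    have h1 : β = ((p ^ (M - e) * j : ℕ) : ZMod (p ^ M)) := by
      rw [← hj, ZMod.natCast_zmod_val]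
    rw [h1]
    push_cast
    have : (p : ZMod (p ^ M)) ^ (M - e) * (p : ZMod (p ^ M)) ^ e = 0 := by
      rw [← pow_add]
      exact pow_zero_of_le (by omega)
    linear_combination (j : ZMod (p ^ M)) * this
  have hper := sum_periodic_complex (fun r : ℕ => chi (β * (r : ZMod (p ^ M)))) (p ^ e)
    (p ^ (M - e)) (by
      intro r
      congr 1
      push_cast
      linear_combination hz)
  have e1 : p ^ e * p ^ (M - e) = p ^ M := by
    rw [← pow_add]
    congr 1
    omega
  have h2 : ∑ r ∈ Finset.range (p ^ M), chi (β * (r : ZMod (p ^ M))) = 0 := by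
    rw [← sum_zmod_complex (fun r => chi (β * r))]
    have := sum_chi β
    rw [if_neg h0] at this
    rw [← this]
    apply Finset.sum_congr rfl
    intro x _
    rw [mul_comm]
  rw [e1, h2] at hper
  have h3 : ((p ^ (M - e) : ℕ) : ℂ) ≠ 0 := by
    exact_mod_cast pow_ne_zero _ hp.out.ne_zero
  exact (mul_eq_zero.mp hper.symm).resolve_left h3

theorem cover (A B : ι → Finset ℕ) (hq : 0 < Fintype.card ι) (K e : ℕ) (he : e ≤ M)
    (z : ZMod (p ^ M)) (x : ℕ → ZMod (p ^ M))
    (hx : ∀ r < p ^ e, ∃ t, x r = (r : ZMod (p ^ M)) + (p : ZMod (p ^ M)) ^ e * t)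
    (hw : ∑ b ∈ Finset.univ.filter (fun b : ZMod (p ^ M) => ¬ p ^ (M - e) ∣ b.val),
      (w p A K b z + w p B K b z) < 2) (Y : ZMod (p ^ M)) :
    ∃ r < p ^ e, ∃ a b, cnt p A K z a ≠ 0 ∧ cnt p B K z b ≠ 0 ∧ x r + a + b = Y := by
  classical
  by_contra hcon
  push Not at hcon
  set f : ZMod (p ^ M) → ℂ := fun v => ∑ r ∈ Finset.range (p ^ e), if x r = v then 1 else 0
    with hf
  have hz := fourier_triple f (cnt p A K z) (cnt p B K z) Y (by
    intro x' a b hsum
    by_contra hne
    have h1 : f x' ≠ 0 := fun h => hne (by rw [h]; ring)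
    have h2 : cnt p A K z a ≠ 0 := fun h => hne (by rw [h]; ring)
    have h3 : cnt p B K z b ≠ 0 := fun h => hne (by rw [h]; ring)
    obtain ⟨r, hr, hr2⟩ := Finset.exists_ne_zero_of_sum_ne_zero h1
    have hr3 : x r = x' := by
      by_contra h
      exact hr2 (if_neg h)
    exact hcon r (Finset.mem_range.mp hr) a b h2 h3 (by rw [hr3]; exact hsum))
  have hhat : ∀ β, hat f β = ∑ r ∈ Finset.range (p ^ e), chi (β * x r) := by
    intro β
    unfold hat
    simp only [hf]
    simp_rw [Finset.sum_mul]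
    rw [Finset.sum_comm]
    apply Finset.sum_congr rfl
    intro r _
    rw [Finset.sum_eq_single (x r)]
    · simp
    · intro v _ hv
      rw [if_neg (fun h => hv h.symm), zero_mul]
    · intro h
      exact absurd (Finset.mem_univ _) h
  have hnorm : ∀ β, ‖hat f β‖ ≤ (p : ℝ) ^ e := by
    intro β
    rw [hhat]
    refine (norm_sum_le _ _).trans ?_
    simp [norm_chi]
  have hlow : ∀ β : ZMod (p ^ M), p ^ (M - e) ∣ β.val → β ≠ 0 → hat f β = 0 := by
    intro β hβ h0
    rw [hhat, ← low_sum he β hβ h0]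
    apply Finset.sum_congr rfl
    intro r hr
    obtain ⟨t, ht⟩ := hx r (Finset.mem_range.mp hr)
    rw [ht]
    congr 1
    have hz : β * (p : ZMod (p ^ M)) ^ e = 0 := by
      obtain ⟨j, hj⟩ := hβ
      have h1 : β = ((p ^ (M - e) * j : ℕ) : ZMod (p ^ M)) := by
        rw [← hj, ZMod.natCast_zmod_val]
      rw [h1]
      push_cast
      have : (p : ZMod (p ^ M)) ^ (M - e) * (p : ZMod (p ^ M)) ^ e = 0 := by
        rw [← pow_add]
        exact pow_zero_of_le (by omega)
      linear_combination (j : ZMod (p ^ M)) * this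
    linear_combination t * hz
  have hzero : hat f 0 = (p : ℂ) ^ e := by
    rw [hhat]
    simp [chi_zero]
  set Q : ℝ := (Fintype.card ι : ℝ) ^ (2 * K) with hQ
  have hQ0 : 0 < Q := by
    have : (0 : ℝ) < Fintype.card ι := by exact_mod_cast hq
    positivity
  have hp0 : (0 : ℝ) < (p : ℝ) ^ e := by
    have : (0 : ℝ) < p := by exact_mod_cast hp.out.pos
    positivity
  -- split off zero
  rw [← Finset.add_sum_erase _ _ (Finset.mem_univ (0 : ZMod (p ^ M)))] at hz
  rw [zero_mul, neg_zero, chi_zero, one_mul, hzero, hat_cnt_at_zero, hat_cnt_at_zero] at hz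
  set s := Finset.univ.filter (fun b : ZMod (p ^ M) => ¬ p ^ (M - e) ∣ b.val) with hs
  have hsub : ∑ β ∈ Finset.univ.erase (0 : ZMod (p ^ M)),
      chi (-(β * Y)) * (hat f β * hat (cnt p A K z) β * hat (cnt p B K z) β)
      = ∑ β ∈ s, chi (-(β * Y)) * (hat f β * hat (cnt p A K z) β * hat (cnt p B K z) β) := by
    symm
    apply Finset.sum_subset
    · intro β hβ
      rw [hs, Finset.mem_filter] at hβ
      rw [Finset.mem_erase]
      refine ⟨?_, Finset.mem_univ _⟩
      rintro rfl
      exact hβ.2 (by simp)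
    · intro β hβ hβs
      rw [Finset.mem_erase] at hβ
      rw [hs, Finset.mem_filter, not_and, not_not] at hβs
      rw [hlow β (hβs (Finset.mem_univ _)) hβ.1]
      ring
  rw [hsub] at hz
  have hbound : ‖∑ β ∈ s, chi (-(β * Y)) *
      (hat f β * hat (cnt p A K z) β * hat (cnt p B K z) β)‖
      ≤ ∑ β ∈ s, (p : ℝ) ^ e * (Q / 2 * (w p A K β z + w p B K β z)) := by
    refine (norm_sum_le _ _).trans (Finset.sum_le_sum ?_)
    intro β _
    rw [norm_mul, norm_chi, one_mul, mul_assoc, norm_mul, norm_mul]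
    apply mul_le_mul (hnorm β) _ (by positivity) hp0.le
    have h1 := norm_hat_cnt p A hq K z β
    have h2 := norm_hat_cnt p B hq K z β
    have h3 := two_mul_le_add_sq ‖hat (cnt p A K z) β‖ ‖hat (cnt p B K z) β‖
    rw [h1, h2] at h3
    linarith
  rw [← Finset.mul_sum, ← Finset.mul_sum] at hbound
  have hmain : ‖(p : ℂ) ^ e * (Fintype.card ι : ℂ) ^ K * (Fintype.card ι : ℂ) ^ K‖
      = (p : ℝ) ^ e * Q := by
    rw [norm_mul, norm_mul, norm_pow, norm_pow, Complex.norm_natCast, Complex.norm_natCast, hQ,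
      two_mul, pow_add]
    ring
  have heq : (p : ℂ) ^ e * (Fintype.card ι : ℂ) ^ K * (Fintype.card ι : ℂ) ^ K
      = - ∑ β ∈ s, chi (-(β * Y)) *
      (hat f β * hat (cnt p A K z) β * hat (cnt p B K z) β) := by
    exact eq_neg_of_add_eq_zero_left hz
  rw [heq, norm_neg] at hmain
  rw [hmain] at hbound
  have : (p : ℝ) ^ e * (Q / 2 * ∑ i ∈ s, (w p A K i z + w p B K i z)) < (p : ℝ) ^ e * Q := by
    apply mul_lt_mul_of_pos_left _ hp0
    have : Q / 2 * ∑ i ∈ s, (w p A K i z + w p B K i z) < Q / 2 * 2 :=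
      mul_lt_mul_of_pos_left hw (by positivity)
    linarith
  linarith

end Cover

end Pool.Agent.Helper191_Long
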