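import Pool.Agent.Helper191_Long.Ring

set_option autoImplicit false

namespace Pool.Agent.Helper191_Long

open Pool.Agent.Helper191_Fac

def LA1 : List (List ℕ) := [
  [],
  [34, 43, 48],
  [6, 8, 34],
  [6, 34],
  [48],
  [13, 30, 43],
  [8, 30, 37],
  [30, 37],
  [13, 37],
  [43, 51],
  [8, 30],
  [30],
  [13],
  [43, 48, 51],
  [8, 34],
  [34],
  [13, 48],
  [13, 37, 43, 51],
  [8, 34, 48],
  [34, 48],
  [30, 43, 51],
  [13, 43, 51],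
  [30, 34, 37],
  [13, 30],
  [34, 43, 51],
  [8, 30, 34],
  [30, 34],
  [51],
  [6, 8, 37, 45],
  [6, 37, 45],
  [30, 34, 48],
  [6, 43],
  [6, 8, 45],
  [6, 45],
  [30, 37, 51],
  [6, 43, 48],
  [6, 8, 45, 48],
  [6, 45, 48],
  [30, 51],
  [37, 43],
  [8, 37, 45],
  [37, 45],
  [8, 43],
  [43],
  [8, 45],
  [45],
  [6, 34, 43],
  [43, 48],
  [6, 8],
  [6],
  [30, 37, 43],
  [13, 37, 43],
  [30, 37, 45],
  [6, 48],
  [30, 43],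
  [13, 43],
  [30, 45],
  [37],
  [34, 43],
  [13, 43, 48],
  [8]]

def LB1 : List (List ℕ) := [
  [],
  [59],
  [2],
  [2, 59],
  [1, 2, 59],
  [24, 29, 56],
  [28, 56, 60],
  [28, 56],
  [28, 56, 59],
  [2, 28, 56],
  [29, 56, 60],
  [29, 56],
  [29, 56, 59],
  [28, 29],
  [28, 29, 59],
  [2, 28, 29],
  [24, 39, 56],
  [24, 39, 56, 59],
  [24, 28, 39],
  [24, 28, 39, 59],
  [2, 24, 28, 39],
  [39, 56, 60],
  [39, 56],
  [39, 56, 59],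
  [28, 39],
  [28, 39, 59],
  [24, 56, 60],
  [24, 56],
  [29, 39],
  [24, 28],
  [24, 28, 59],
  [2, 24, 28],
  [56, 60],
  [56],
  [56, 59],
  [28],
  [28, 59],
  [2, 28],
  [29, 60],
  [29],
  [29, 59],
  [2, 29],
  [2, 29, 59],
  [24, 39, 60],
  [24, 39],
  [24, 39, 59],
  [28, 29, 56],
  [28, 29, 56, 59],
  [2, 28, 29, 56],
  [39, 60],
  [39],
  [39, 59],
  [2, 39],
  [2, 39, 59],
  [24, 60],
  [24],
  [24, 59],
  [2, 24],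
  [2, 24, 59],
  [1, 2, 24, 59],
  [60]]

def LA2 : List (List ℕ) := [
  [],
  [4, 11, 36],
  [4, 10, 11, 15],
  [11, 15, 54],
  [16, 21, 47, 54],
  [5, 36, 41, 46],
  [15, 22, 40, 46],
  [5, 35, 46, 58],
  [18, 22, 40, 41],
  [12, 36, 47],
  [11, 12, 16],
  [11, 12, 22, 52],
  [10, 11, 40, 47],
  [15, 16, 40, 54],
  [10, 16, 58],
  [46, 47, 50, 58],
  [15, 36, 46, 54],
  [4, 10, 18, 36, 41],
  [15, 41, 46, 58],
  [4, 5, 18, 50],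
  [18, 35, 54, 58],
  [5, 21, 46, 47],
  [4, 46, 50, 52],
  [12, 22, 40],
  [4, 11, 16, 46, 47],
  [16, 36, 41, 47],
  [4, 16, 22, 50],
  [16, 35, 47, 58],
  [18, 52],
  [11, 22, 41],
  [5, 15, 40, 46],
  [11, 22, 35, 50],
  [16, 21, 36],
  [12, 36, 54],
  [4, 16, 35, 52],
  [12, 41, 58],
  [4, 35],
  [12, 35, 50, 58],
  [11, 15, 16, 47, 52],
  [5, 10, 52, 58],
  [11, 15, 47],
  [4, 18, 36, 40],
  [22, 36, 41, 46],
  [4, 11, 21, 50],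
  [10, 18, 58],
  [5, 21, 46, 54],
  [15, 16, 21, 35, 47],
  [5, 12, 40],
  [5, 12, 36, 46, 52],
  [16, 36, 41, 54],
  [4, 5, 16, 50],
  [12, 21, 47, 50],
  [5, 12, 16, 22, 36],
  [5, 11, 41],
  [11, 15, 16, 46],
  [18, 36, 41, 47],
  [4, 21, 46, 58],
  [5, 21, 36, 52],
  [21, 22, 46, 47],
  [16, 52],
  [10, 12, 22, 41]]

def LB2 : List (List ℕ) := [
  [],
  [3, 19, 33],
  [7, 23, 25, 31],
  [7, 38, 53],
  [19, 31, 32, 57],
  [9, 27, 32, 55],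
  [14, 20, 31, 44, 53],
  [7, 32, 55],
  [17, 19, 26, 38, 44],
  [25, 31, 53],
  [3, 7, 9, 33, 49],
  [7, 23, 26, 33, 44, 57],
  [7, 17, 27, 32],
  [19, 23, 26],
  [20, 33, 44],
  [19, 25, 27],
  [17, 26, 33],
  [3, 7, 17, 25, 44],
  [3, 9, 20, 27, 38],
  [14, 23],
  [3, 7, 20, 38],
  [3, 26, 57],
  [17, 19, 31],
  [9, 25, 27, 57],
  [19, 31, 44, 53, 57],
  [7, 25, 57],
  [3, 20, 25, 31],
  [9, 20, 38, 53],
  [3, 7, 19, 31],
  [9, 26, 33, 53],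
  [9, 17, 31, 57],
  [27, 32, 38, 57],
  [14, 25, 33, 55],
  [7, 9, 14, 20],
  [20, 23, 31, 32, 38],
  [3, 32, 44],
  [23, 25, 33],
  [23, 32, 53],
  [7, 17, 20, 32],
  [19, 32, 33, 49],
  [14, 17, 19, 20, 26],
  [19, 20, 25],
  [19, 31, 33, 38],
  [7, 17, 26, 31],
  [38, 55],
  [3, 7, 17, 19, 53],
  [3, 14, 20, 38, 53],
  [14, 20, 31, 32],
  [3, 14, 26, 33, 53],
  [27, 33, 44],
  [9, 31, 33, 38, 57],
  [7, 9, 19, 57],
  [3, 9, 19, 20, 31],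
  [9, 17, 26, 53, 55],
  [3, 20, 23, 32],
  [3, 7, 27, 38],
  [7, 9, 26, 31, 53],
  [20, 32, 38, 57],
  [7, 20, 32, 33, 38],
  [3, 23, 26, 31],
  [17, 23, 25, 55]]

def IA1 : Finset ℕ := {6, 8, 13, 30, 34, 37, 43, 45, 48, 51}

def IB1 : Finset ℕ := {1, 2, 24, 28, 29, 39, 42, 56, 59, 60}

def IA2 : Finset ℕ := {4, 5, 10, 11, 12, 15, 16, 18, 21, 22, 35, 36, 40, 41, 46, 47, 50, 52, 54, 58}

def IB2 : Finset ℕ := {3, 7, 9, 14, 17, 19, 20, 23, 25, 26, 27, 31, 32, 33, 38, 44, 49, 53, 55, 57}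


/-- The subset with index `u` in a list of subsets. -/
def pick (L : List (List ℕ)) (u : ℕ) : Finset ℕ := (L.getD u []).toFinset

set_option maxRecDepth 100000 in
theorem chkA1 : ∀ u < 61, pick LA1 u ⊆ IA1 ∧ sA (pick LA1 u) (-61 : ℤ) % 61 = u := by
  decide +kernel

set_option maxRecDepth 100000 in
theorem chkB1 : ∀ u < 61, pick LB1 u ⊆ IB1 ∧ sA (pick LB1 u) (-61 : ℤ) % 61 = u := by
  decide +kernel

set_option maxRecDepth 100000 in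
theorem chkA2 : ∀ u < 61, pick LA2 u ⊆ IA2 ∧ sA (pick LA2 u) (-61 : ℤ) % 3721 = 61 * u := by
  decide +kernel

set_option maxRecDepth 100000 in
theorem chkB2 : ∀ u < 61, pick LB2 u ⊆ IB2 ∧ sA (pick LB2 u) (-61 : ℤ) % 3721 = 61 * u := by
  decide +kernel

theorem disj : Disjoint IA1 IA2 ∧ Disjoint IB1 IB2 ∧ Disjoint (IA1 ∪ IA2) (IB1 ∪ IB2) := by
  decide +kernel

theorem range_ok : (∀ r ∈ IA1 ∪ IA2, r < 61 ∧ r ≠ 0) ∧ (∀ r ∈ IB1 ∪ IB2, r < 61 ∧ r ≠ 0) := by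
  decide +kernel

/-- The first family. -/
def famA (i : Fin 61 × Fin 61) : Finset ℕ := pick LA1 i.1 ∪ pick LA2 i.2

/-- The second family. -/
def famB (i : Fin 61 × Fin 61) : Finset ℕ := pick LB1 i.1 ∪ pick LB2 i.2

theorem inj_of (L1 L2 : List (List ℕ)) (I1 I2 : Finset ℕ) (hd : Disjoint I1 I2)
    (h1 : ∀ u < 61, pick L1 u ⊆ I1 ∧ sA (pick L1 u) (-61 : ℤ) % 61 = u)
    (h2 : ∀ u < 61, pick L2 u ⊆ I2 ∧ sA (pick L2 u) (-61 : ℤ) % 3721 = 61 * u)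
    (i j : Fin 61 × Fin 61) (hij : i ≠ j) :
    ¬ (((61 : ℕ) : ℤ) ^ 2 ∣ sA (pick L1 i.1 ∪ pick L2 i.2) (-((61 : ℕ) : ℤ))
      - sA (pick L1 j.1 ∪ pick L2 j.2) (-((61 : ℕ) : ℤ))) := by
  intro h
  apply hij
  have hs : ∀ i : Fin 61 × Fin 61, sA (pick L1 i.1 ∪ pick L2 i.2) (-61 : ℤ)
      = sA (pick L1 i.1) (-61 : ℤ) + sA (pick L2 i.2) (-61 : ℤ) := by
    intro i
    unfold sA
    apply Finset.sum_union
    exact Finset.disjoint_of_subset_left (h1 i.1 i.1.2).1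
      (Finset.disjoint_of_subset_right (h2 i.2 i.2.2).1 hd)
  push_cast at h
  rw [hs, hs] at h
  have a1 := (h1 i.1 i.1.2).2
  have a2 := (h2 i.2 i.2.2).2
  have b1 := (h1 j.1 j.1.2).2
  have b2 := (h2 j.2 j.2.2).2
  have l1 := i.1.2
  have l2 := i.2.2
  have l3 := j.1.2
  have l4 := j.2.2
  norm_num at h
  have e1 : (i.1 : ℕ) = j.1 := by omega
  have e2 : (i.2 : ℕ) = j.2 := by
    have hs' : sA (pick L1 i.1) (-61 : ℤ) = sA (pick L1 j.1) (-61 : ℤ) := by rw [e1]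
    rw [hs'] at h
    omega
  exact Prod.ext (Fin.ext e1) (Fin.ext e2)

theorem famA_inj : ∀ i j, i ≠ j → ¬ (((61 : ℕ) : ℤ) ^ 2 ∣ sA (famA i) (-((61 : ℕ) : ℤ))
      - sA (famA j) (-((61 : ℕ) : ℤ))) :=
  fun i j hij => inj_of LA1 LA2 IA1 IA2 disj.1 chkA1 chkA2 i j hij

theorem famB_inj : ∀ i j, i ≠ j → ¬ (((61 : ℕ) : ℤ) ^ 2 ∣ sA (famB i) (-((61 : ℕ) : ℤ))
      - sA (famB j) (-((61 : ℕ) : ℤ))) :=
  fun i j hij => inj_of LB1 LB2 IB1 IB2 disj.2.1 chkB1 chkB2 i j hij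

theorem famA_sub (i : Fin 61 × Fin 61) : famA i ⊆ IA1 ∪ IA2 :=
  Finset.union_subset_union (chkA1 i.1 i.1.2).1 (chkA2 i.2 i.2.2).1

theorem famB_sub (i : Fin 61 × Fin 61) : famB i ⊆ IB1 ∪ IB2 :=
  Finset.union_subset_union (chkB1 i.1 i.1.2).1 (chkB2 i.2 i.2.2).1

theorem famA_lt (i : Fin 61 × Fin 61) (r : ℕ) (hr : r ∈ famA i) : r < 61 :=
  (range_ok.1 r (famA_sub i hr)).1

theorem famB_lt (i : Fin 61 × Fin 61) (r : ℕ) (hr : r ∈ famB i) : r < 61 :=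
  (range_ok.2 r (famB_sub i hr)).1

theorem famA_zero (i : Fin 61 × Fin 61) : 0 ∉ famA i :=
  fun h => (range_ok.1 0 (famA_sub i h)).2 rfl

theorem famB_zero (i : Fin 61 × Fin 61) : 0 ∉ famB i :=
  fun h => (range_ok.2 0 (famB_sub i h)).2 rfl

theorem fam_disj (i j : Fin 61 × Fin 61) : Disjoint (famA i) (famB j) :=
  Finset.disjoint_of_subset_left (famA_sub i)
    (Finset.disjoint_of_subset_right (famB_sub j) disj.2.2)

theorem card_index : Fintype.card (Fin 61 × Fin 61) = 61 ^ 2 := by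
  simp

end Pool.Agent.Helper191_Long
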