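import Pool.Agent.Helper191_Long.Main

set_option autoImplicit false

namespace Pool.Agent.Helper191_Long

open Pool.Agent.Helper191_Fac

attribute [local instance] fact61

theorem card_S (t : ℕ) (ht : 3 ≤ t) :
    (61 : ℝ) ^ 2 * 61 ^ (160 * t - 4) ≤ (Sset t).card + 2 * 61 ^ (160 * t - 4)
      + 61 * 61 ^ (160 * t - 4) := by
  classical
  set viol : ℕ → ℕ → Finset ℕ := fun D x =>
    (Finset.range (61 ^ (160 * t))).filter (fun m => ¬ (m % 61 ^ D + x < 61 ^ D)) with hviol
  have hsub : (Finset.range (61 ^ (160 * t))).filter (fun m => 61 ^ 2 ∣ m) ⊆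
      Sset t ∪ ((Finset.Ico 8 (5 * t + 3)).biUnion (fun D => viol D (732 * D))
        ∪ viol (10 * t + 3) (61 ^ (10 * t))) := by
    intro m hm
    rw [Finset.mem_filter, Finset.mem_range] at hm
    by_contra hcon
    rw [Finset.mem_union, Finset.mem_union, not_or, not_or] at hcon
    obtain ⟨h1, h2, h3⟩ := hcon
    apply h1
    rw [mem_Sset]
    refine ⟨hm.1, hm.2, ?_, ?_⟩
    · intro D hD
      by_contra h4
      apply h2
      rw [Finset.mem_biUnion]
      refine ⟨D, hD, ?_⟩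
      rw [hviol]
      simp only [Finset.mem_filter, Finset.mem_range]
      exact ⟨hm.1, h4⟩
    · by_contra h4
      apply h3
      rw [hviol]
      simp only [Finset.mem_filter, Finset.mem_range]
      exact ⟨hm.1, h4⟩
  have hcard := Finset.card_le_card hsub
  rw [count_sq (p := 61) (M := 160 * t) (by omega)] at hcard
  have h1 : (Sset t ∪ ((Finset.Ico 8 (5 * t + 3)).biUnion (fun D => viol D (732 * D))
        ∪ viol (10 * t + 3) (61 ^ (10 * t)))).card
      ≤ (Sset t).card + (∑ D ∈ Finset.Ico 8 (5 * t + 3), 61 ^ (160 * t - D) * (732 * D)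
        + 61 ^ (160 * t - (10 * t + 3)) * 61 ^ (10 * t)) := by
    refine (Finset.card_union_le _ _).trans (Nat.add_le_add_left ?_ _)
    refine (Finset.card_union_le _ _).trans (Nat.add_le_add ?_ ?_)
    · refine Finset.card_biUnion_le.trans (Finset.sum_le_sum ?_)
      intro D hD
      rw [Finset.mem_Ico] at hD
      exact count_top (p := 61) (M := 160 * t) (by omega)
    · exact count_top (p := 61) (M := 160 * t) (by omega)
  have h2 : (61 : ℝ) ^ (160 * t - 2) ≤ (Sset t).card +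
      (∑ D ∈ Finset.Ico 8 (5 * t + 3), (61 : ℝ) ^ (160 * t - D) * (732 * D)
        + 61 ^ (160 * t - (10 * t + 3)) * 61 ^ (10 * t)) := by
    exact_mod_cast hcard.trans h1
  have h3 : ∑ D ∈ Finset.Ico 8 (5 * t + 3), (61 : ℝ) ^ (160 * t - D) * (732 * D)
      ≤ 61 ^ (160 * t - 4) * 2 := by
    have h4 : ∀ D ∈ Finset.Ico 8 (5 * t + 3), (61 : ℝ) ^ (160 * t - D) * (732 * D)
        ≤ 61 ^ (160 * t - 4) * (1 / 2) ^ D := by
      intro D hD
      rw [Finset.mem_Ico] at hD
      have h5 : (732 : ℝ) * D * 2 ^ D ≤ 61 ^ (D - 4) := by exact_mod_cast small_D D hD.1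
      have h6 : (61 : ℝ) ^ (160 * t - 4) = 61 ^ (160 * t - D) * 61 ^ (D - 4) := by
        rw [← pow_add]
        congr 1
        omega
      rw [h6, one_div, inv_pow, ← div_eq_mul_inv, le_div_iff₀ (by positivity), mul_assoc]
      exact mul_le_mul_of_nonneg_left h5 (by positivity)
    refine (Finset.sum_le_sum h4).trans ?_
    rw [← Finset.mul_sum]
    apply mul_le_mul_of_nonneg_left _ (by positivity)
    refine le_trans ?_ (sum_geometric_two_le (5 * t + 3))
    apply Finset.sum_le_sum_of_subset_of_nonneg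
    · intro D hD
      rw [Finset.mem_Ico] at hD
      rw [Finset.mem_range]
      exact hD.2
    · intro i _ _
      positivity
  have h7 : (61 : ℝ) ^ (160 * t - (10 * t + 3)) * 61 ^ (10 * t) = 61 * 61 ^ (160 * t - 4) := by
    rw [← pow_add, ← pow_succ']
    congr 1
    omega
  have h8 : (61 : ℝ) ^ (160 * t - 2) = 61 ^ 2 * 61 ^ (160 * t - 4) := by
    rw [← pow_add]
    congr 1
    omega
  rw [h7] at h2
  rw [h8] at h2
  linarith

theorem markov (S : Finset ℕ) (E : ℕ → ℝ) (hE : ∀ m ∈ S, 0 ≤ E m) (B : ℝ)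
    (h : ∑ m ∈ S, E m ≤ 2 * B) [DecidablePred (fun m => 2 ≤ E m)] :
    ((S.filter (fun m => 2 ≤ E m)).card : ℝ) ≤ B := by
  have h1 : ((S.filter (fun m => 2 ≤ E m)).card : ℝ) * 2 ≤ ∑ m ∈ S.filter (fun m => 2 ≤ E m), E m := by
    rw [← nsmul_eq_mul, ← Finset.sum_const]
    apply Finset.sum_le_sum
    intro m hm
    rw [Finset.mem_filter] at hm
    exact hm.2
  have h2 : ∑ m ∈ S.filter (fun m => 2 ≤ E m), E m ≤ ∑ m ∈ S, E m := by
    apply Finset.sum_le_sum_of_subset_of_nonneg (Finset.filter_subset _ _)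
    intro m hm _
    exact hE m hm
  linarith

theorem E0_nonneg (t m : ℕ) : 0 ≤ E0 t m := by
  unfold E0
  exact Finset.sum_nonneg fun v _ => add_nonneg (W_nonneg _ _ _ _) (W_nonneg _ _ _ _)

theorem E1_nonneg (t m : ℕ) : 0 ≤ E1 t m := by
  unfold E1
  exact Finset.sum_nonneg fun v _ => add_nonneg (W_nonneg _ _ _ _) (W_nonneg _ _ _ _)

theorem card_Good (t : ℕ) (ht : 3 ≤ t) :
    3655 * (61 : ℝ) ^ (160 * t - 4) ≤ (Good t).card := by
  classical
  set bad0 := (Sset t).filter (fun m => 2 ≤ E0 t m) with hbad0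
  set bad : ℕ → Finset ℕ := fun j => (Sset t).filter
    (fun m => 2 ≤ E1 t (m + 61 * (86 * t) * j)) with hbad
  have hsub : Sset t ⊆ Good t ∪ (bad0 ∪ (Finset.range (61 ^ (9 * t))).biUnion bad) := by
    intro m hm
    by_contra hcon
    rw [Finset.mem_union, Finset.mem_union, not_or, not_or] at hcon
    obtain ⟨h1, h2, h3⟩ := hcon
    apply h1
    unfold Good
    rw [Finset.mem_filter]
    refine ⟨hm, ?_, ?_⟩
    · by_contra h4
      apply h2
      rw [hbad0, Finset.mem_filter]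
      exact ⟨hm, not_lt.mp h4⟩
    · intro j hj
      by_contra h4
      apply h3
      rw [Finset.mem_biUnion]
      refine ⟨j, Finset.mem_range.mpr hj, ?_⟩
      rw [hbad]
      simp only [Finset.mem_filter]
      exact ⟨hm, not_lt.mp h4⟩
  have hcard := Finset.card_le_card hsub
  have h1 : (Good t ∪ (bad0 ∪ (Finset.range (61 ^ (9 * t))).biUnion bad)).card ≤
      (Good t).card + (bad0.card + ∑ j ∈ Finset.range (61 ^ (9 * t)), (bad j).card) := by
    refine (Finset.card_union_le _ _).trans (Nat.add_le_add_left ?_ _)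
    exact (Finset.card_union_le _ _).trans (Nat.add_le_add_left Finset.card_biUnion_le _)
  have h2 : ((Sset t).card : ℝ) ≤ (Good t).card + (bad0.card +
      ∑ j ∈ Finset.range (61 ^ (9 * t)), ((bad j).card : ℝ)) := by
    exact_mod_cast hcard.trans h1
  have hsm : (5246 : ℝ) * t ≤ 61 ^ t := by exact_mod_cast small_pow t ht
  have ht0 : (0 : ℝ) ≤ t := by positivity
  have h3 : (bad0.card : ℝ) ≤ 2 * 61 ^ (160 * t - 4) := by
    have h4 := markov (Sset t) (fun m => E0 t m) (fun m _ => E0_nonneg t m) _ (sum_E0 t ht)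
    refine h4.trans ?_
    have h5 : (61 : ℝ) ^ (160 * t - 8) ≤ 61 ^ (160 * t - 4) :=
      pow_le_pow_right₀ (by norm_num) (by omega)
    have h6 : 160 * (t : ℝ) * 61 ^ (148 * t) ≤ 61 ^ (160 * t - 4) := by
      calc 160 * (t : ℝ) * 61 ^ (148 * t) ≤ 61 ^ t * 61 ^ (148 * t) := by
            apply mul_le_mul_of_nonneg_right _ (by positivity)
            linarith
        _ = 61 ^ (t + 148 * t) := by rw [pow_add]
        _ ≤ 61 ^ (160 * t - 4) := pow_le_pow_right₀ (by norm_num) (by omega)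
    linarith
  have h4 : ∑ j ∈ Finset.range (61 ^ (9 * t)), ((bad j).card : ℝ) ≤ 61 ^ (160 * t - 4) := by
    have h5 : ∀ j ∈ Finset.range (61 ^ (9 * t)), ((bad j).card : ℝ)
        ≤ 100 * t * 61 ^ (148 * t) := by
      intro j hj
      rw [Finset.mem_range] at hj
      exact markov (Sset t) (fun m => E1 t (m + 61 * (86 * t) * j))
        (fun m _ => E1_nonneg t _) _ (sum_E1 t ht j hj)
    refine (Finset.sum_le_sum h5).trans ?_
    rw [Finset.sum_const, Finset.card_range, nsmul_eq_mul]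
    push_cast
    calc (61 : ℝ) ^ (9 * t) * (100 * t * 61 ^ (148 * t))
        ≤ 61 ^ (9 * t) * (61 ^ t * 61 ^ (148 * t)) := by
          apply mul_le_mul_of_nonneg_left _ (by positivity)
          apply mul_le_mul_of_nonneg_right _ (by positivity)
          linarith
      _ = 61 ^ (9 * t + (t + 148 * t)) := by rw [pow_add, pow_add]
      _ ≤ 61 ^ (160 * t - 4) := pow_le_pow_right₀ (by norm_num) (by omega)
  have h5 := card_S t ht
  linarith

theorem alive (t : ℕ) (ht : 3 ≤ t) (a : ℕ) (ha : a % 61 ^ (160 * t) ∈ Good t) (L : ℕ)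
    (hL1 : 1 ≤ L) (hL : L ≤ 61 ^ (9 * t)) :
    ∃ A : Finset ℕ, a ∈ A ∧ (∀ x ∈ A, a ≤ x ∧ x < a + L) ∧
      61 ^ (padicValNat 61 (a + L).factorial) ∣ ∑ x ∈ A, x.factorial := by
  have hpos : 0 < 61 ^ (9 * t) := by positivity
  have hfull := chain t ht a ha (61 ^ (9 * t) - 1) (by omega)
  rw [Nat.sub_add_cancel hpos] at hfull
  set b := a + 61 * (86 * t) * 61 ^ (9 * t) with hb
  have hLb : a + L ≤ b := by
    rw [hb]
    apply Nat.add_le_add_left
    refine hL.trans ?_
    exact Nat.le_mul_of_pos_left _ (by omega)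
  obtain ⟨A, haA, hA, hdvd⟩ := hfull 0
  rw [zero_mul, sub_zero] at hdvd
  set v := padicValNat 61 (a + L).factorial with hv
  have hvb : 61 ^ v ∣ b.factorial :=
    (pow_padicValNat_dvd : 61 ^ v ∣ (a + L).factorial).trans (Nat.factorial_dvd_factorial hLb)
  have hvle : v ≤ padicValNat 61 b.factorial :=
    (padicValNat_dvd_iff_le (Nat.factorial_ne_zero _)).mp hvb
  have h1 : (61 : ℤ) ^ v ∣ ∑ x ∈ A, ((x.factorial : ℕ) : ℤ) := by
    refine (pow_dvd_pow (61 : ℤ) (show v ≤ padicValNat 61 b.factorial + 60 * t by omega)).trans ?_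
    exact_mod_cast hdvd
  refine ⟨A.filter (fun x => x < a + L), ?_, ?_, ?_⟩
  · rw [Finset.mem_filter]
    exact ⟨haA, by omega⟩
  · intro x hx
    rw [Finset.mem_filter] at hx
    exact ⟨(hA x hx.1).1, hx.2⟩
  · have h2 : 61 ^ v ∣ ∑ x ∈ A, x.factorial := by exact_mod_cast h1
    rw [← Finset.sum_filter_add_sum_filter_not A (fun x => x < a + L)] at h2
    refine (Nat.dvd_add_left ?_).mp h2
    apply Finset.dvd_sum
    intro x hx
    rw [Finset.mem_filter, not_lt] at hx
    exact (pow_padicValNat_dvd : 61 ^ v ∣ (a + L).factorial).trans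
      (Nat.factorial_dvd_factorial hx.2)

/-- The property of the main theorem: `a` survives `L` steps. -/
def Alive (a L : ℕ) : Prop := ∃ A : Finset ℕ, a ∈ A ∧ (∀ x ∈ A, a ≤ x ∧ x < a + L) ∧
      61 ^ (padicValNat 61 (a + L).factorial) ∣ ∑ x ∈ A, x.factorial

theorem main (N : ℕ) (hN : 61 ^ 1280 ≤ N) :
    (N : ℝ) / 10000 ≤ (({a : ℕ | 1 ≤ a ∧ a ≤ N ∧ ∀ L : ℕ, 1 ≤ L → L ^ 20 ≤ N →
      Alive a L}).ncard : ℝ) := by
  classical
  have hN0 : N ≠ 0 := by
    have : 0 < 61 ^ 1280 := by positivity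
    omega
  set t := Nat.log 61 N / 160 with ht
  have hlog : 1280 ≤ Nat.log 61 N := by
    exact Nat.le_log_of_pow_le (by norm_num) hN
  have ht8 : 8 ≤ t := by omega
  have hlow : 61 ^ (160 * t) ≤ N := by
    apply Nat.pow_le_of_le_log hN0
    omega
  have hup : N < 61 ^ (180 * t) := by
    refine lt_of_lt_of_le (Nat.lt_pow_succ_log_self (by norm_num : 1 < 61) N) ?_
    apply Nat.pow_le_pow_right (by norm_num)
    omega
  set P := 61 ^ (160 * t) with hP
  set q := N / P with hq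
  have hPpos : 0 < P := by positivity
  have hq1 : 1 ≤ q := (Nat.one_le_div_iff hPpos).mpr hlow
  set G := (Finset.range (P * q)).filter (fun a => a % P ∈ Good t) with hG
  have hGcard : (G.card : ℝ) = q * (Good t).card := by
    have h1 := sum_periodic (fun a => if a % P ∈ Good t then (1 : ℝ) else 0) P q
      (by intro n; simp)
    rw [hG, Finset.card_filter]
    push_cast
    rw [h1]
    congr 1
    have h2 : ∑ n ∈ Finset.range P, (if n % P ∈ Good t then (1 : ℝ) else 0)
        = ∑ n ∈ Finset.range P, (if n ∈ Good t then (1 : ℝ) else 0) := by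
      apply Finset.sum_congr rfl
      intro n hn
      rw [Finset.mem_range] at hn
      rw [Nat.mod_eq_of_lt hn]
    rw [h2, ← Finset.sum_filter, Finset.sum_const, nsmul_eq_mul, mul_one]
    congr 2
    ext m
    rw [Finset.mem_filter, Finset.mem_range]
    constructor
    · exact fun h => h.2
    · intro h
      refine ⟨?_, h⟩
      unfold Good at h
      rw [Finset.mem_filter, mem_Sset] at h
      exact h.1.1
  have hfin : {a : ℕ | 1 ≤ a ∧ a ≤ N ∧ ∀ L : ℕ, 1 ≤ L → L ^ 20 ≤ N → Alive a L}.Finite := by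
    apply (Set.finite_Icc 1 N).subset
    intro a ha
    exact ⟨ha.1, ha.2.1⟩
  have hsub : ((G.erase 0 : Finset ℕ) : Set ℕ) ⊆
      {a : ℕ | 1 ≤ a ∧ a ≤ N ∧ ∀ L : ℕ, 1 ≤ L → L ^ 20 ≤ N → Alive a L} := by
    intro a ha
    rw [Finset.mem_coe, Finset.mem_erase, hG, Finset.mem_filter, Finset.mem_range] at ha
    obtain ⟨ha0, hlt, hgood⟩ := ha
    refine ⟨by omega, ?_, ?_⟩
    · have : P * q ≤ N := Nat.mul_div_le N P
      omega
    · intro L hL1 hL
      apply alive t (by omega) a hgood L hL1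
      by_contra hcon
      push Not at hcon
      have h1 : (61 ^ (9 * t)) ^ 20 ≤ L ^ 20 := Nat.pow_le_pow_left hcon.le 20
      rw [← pow_mul, show 9 * t * 20 = 180 * t by ring] at h1
      omega
  have hncard := Set.ncard_le_ncard hsub hfin
  rw [Set.ncard_coe_finset] at hncard
  have hcard1 : G.card ≤ (G.erase 0).card + 1 := by
    by_cases h0 : 0 ∈ G
    · rw [Finset.card_erase_of_mem h0]
      omega
    · rw [Finset.erase_eq_of_notMem h0]
      omega
  have h2 : (G.card : ℝ) ≤ (({a : ℕ | 1 ≤ a ∧ a ≤ N ∧ ∀ L : ℕ, 1 ≤ L → L ^ 20 ≤ N →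
      Alive a L}).ncard : ℝ) + 1 := by
    exact_mod_cast hcard1.trans (Nat.add_le_add_right hncard 1)
  have h3 := card_Good t (by omega)
  have hPR : ((P : ℕ) : ℝ) = 61 ^ 4 * 61 ^ (160 * t - 4) := by
    rw [hP]
    push_cast
    rw [← pow_add]
    congr 1
    omega
  have hNq : (N : ℝ) ≤ 2 * q * P := by
    have h4 : N < P * (q + 1) := Nat.lt_mul_div_succ N hPpos
    have h5 : P * (q + 1) ≤ 2 * q * P := by
      calc P * (q + 1) ≤ P * (q + q) := Nat.mul_le_mul_left _ (by omega)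
        _ = 2 * q * P := by ring
    exact_mod_cast (h4.le.trans h5)
  have hNbig : (100000 : ℝ) ≤ N := by
    have h6 : 61 ^ 3 ≤ N := le_trans (Nat.pow_le_pow_right (by norm_num) (by norm_num)) hN
    have h7 : (61 : ℝ) ^ 3 ≤ N := by exact_mod_cast h6
    linarith
  have hqpos : (0 : ℝ) ≤ q := by positivity
  have h8 : (q : ℝ) * (3655 * 61 ^ (160 * t - 4)) ≤ q * (Good t).card :=
    mul_le_mul_of_nonneg_left h3 hqpos
  have h9 : (q : ℝ) * P = 61 ^ 4 * (q * 61 ^ (160 * t - 4)) := by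
    rw [hPR]
    ring
  have h10 : (N : ℝ) ≤ 2 * (61 ^ 4 * (q * 61 ^ (160 * t - 4))) := by
    rw [← h9]
    linarith
  rw [hGcard] at h2
  nlinarith [h10, h8, h2, hNbig]

end Pool.Agent.Helper191_Long
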