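import Pool.Agent.Helper191_Long.Window

set_option autoImplicit false

namespace Pool.Agent.Helper191_Long

open Pool.Agent.Helper191_Fac

section Low
variable {p M : ℕ} [hp : Fact p.Prime] {ι : Type*} [Fintype ι]

theorem sum_orders (f : ZMod (p ^ M) → ℝ) (L : ℕ) :
    ∑ b ∈ Finset.univ.filter (fun b : ZMod (p ^ M) => ¬ p ^ L ∣ b.val), f b
      = ∑ v ∈ Finset.range L, ∑ b ∈ Finset.univ.filter
        (fun b : ZMod (p ^ M) => b ≠ 0 ∧ padicValNat p b.val = v), f b := by
  have hmaps : ∀ b ∈ Finset.univ.filter (fun b : ZMod (p ^ M) => ¬ p ^ L ∣ b.val),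
      padicValNat p b.val ∈ Finset.range L := by
    intro b hb
    rw [Finset.mem_filter] at hb
    rw [Finset.mem_range]
    by_contra h
    push Not at h
    exact hb.2 ((pow_dvd_pow p h).trans pow_padicValNat_dvd)
  rw [← Finset.sum_fiberwise_of_maps_to hmaps]
  apply Finset.sum_congr rfl
  intro v hv
  rw [Finset.mem_range] at hv
  apply Finset.sum_congr _ (fun _ _ => rfl)
  ext b
  simp only [Finset.mem_filter, Finset.mem_univ, true_and]
  constructor
  · rintro ⟨h1, h2⟩
    refine ⟨?_, h2⟩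
    rintro rfl
    exact h1 (by simp)
  · rintro ⟨h1, h2⟩
    refine ⟨?_, h2⟩
    intro h
    have h0 : b.val ≠ 0 := by
      rw [Ne, ZMod.val_eq_zero]
      exact h1
    have := (padicValNat_dvd_iff_le h0).mp h
    omega

theorem F_zero (A : ι → Finset ℕ) (hq : Fintype.card ι = p ^ 2)
    (hinj : ∀ i j, i ≠ j → ¬ ((p : ℤ) ^ 2 ∣ sA (A i) (-(p : ℤ)) - sA (A j) (-(p : ℤ))))
    (hM : 2 ≤ M) (β : ZMod (p ^ M)) (hβ : IsUnit β) (z z' : ZMod (p ^ M))
    (hz : z = (p : ZMod (p ^ M)) * z') :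
    F A ((p : ZMod (p ^ M)) ^ (M - 1) * β) z = 0 := by
  classical
  have hp0 : 0 < p := hp.out.pos
  set b : ZMod (p ^ M) := (p : ZMod (p ^ M)) ^ (M - 1) * β with hb
  have hbp : b * (p : ZMod (p ^ M)) = 0 := by
    have : (p : ZMod (p ^ M)) ^ (M - 1) * (p : ZMod (p ^ M)) ^ 1 = 0 := by
      rw [← pow_add]
      exact pow_zero_of_le (by omega)
    rw [hb]
    linear_combination β * this
  have hb0 : b ≠ 0 := by
    rw [hb]
    intro h
    have h1 : (p : ZMod (p ^ M)) ^ (M - 1) = 0 := (hβ.mul_left_eq_zero).mp h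
    have h2 : ((p ^ (M - 1) : ℕ) : ZMod (p ^ M)) = 0 := by
      push_cast
      exact h1
    rw [ZMod.natCast_eq_zero_iff] at h2
    have := (Nat.pow_dvd_pow_iff_le_right hp.out.one_lt).mp h2
    omega
  have hbdvd : p ^ (M - 2) ∣ b.val := by
    have h1 : b = ((p ^ (M - 1) * β.val : ℕ) : ZMod (p ^ M)) := by
      rw [hb]
      push_cast
      rw [ZMod.natCast_zmod_val]
    rw [h1, ZMod.val_natCast]
    rw [Nat.dvd_mod_iff (pow_dvd_pow p (by omega))]
    exact (pow_dvd_pow p (by omega)).mul_right _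
  have hlow := low_sum (p := p) (M := M) (e := 2) hM b hbdvd hb0
  unfold F
  have e6 : ∀ i, sA (A i) (-(p : ZMod (p ^ M))) = ((sA (A i) (-(p : ℤ)) : ℤ) : ZMod (p ^ M)) := by
    intro i
    unfold sA
    push_cast
    apply Finset.sum_congr rfl
    intro r _
    have := map_asc (Int.castRingHom (ZMod (p ^ M))) (-(p : ℤ)) r
    simp only [eq_intCast, Int.cast_neg, Int.cast_natCast] at this
    exact this.symm
  set g : ι → ℕ := fun i => (sA (A i) (-(p : ℤ)) % (p : ℤ) ^ 2).toNat with hg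
  have hp2 : (0 : ℤ) < (p : ℤ) ^ 2 := by positivity
  have hgcast : ∀ i, ((g i : ℕ) : ℤ) = sA (A i) (-(p : ℤ)) % (p : ℤ) ^ 2 := by
    intro i
    rw [hg]
    exact Int.toNat_of_nonneg (Int.emod_nonneg _ hp2.ne')
  have hterm : ∀ i, chi (b * sA (A i) z) = chi (b * (g i : ZMod (p ^ M))) := by
    intro i
    congr 1
    rw [sA_congr (A i) b z (-(p : ZMod (p ^ M))) (by
      rw [hz]
      linear_combination (z' + 1) * hbp)]
    rw [e6]
    have h1 : sA (A i) (-(p : ℤ)) = (g i : ℤ) + (p : ℤ) ^ 2 * (sA (A i) (-(p : ℤ)) / (p : ℤ) ^ 2) := by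
      rw [hgcast]
      exact (Int.emod_add_mul_ediv _ _).symm
    rw [h1]
    push_cast
    linear_combination ((p : ZMod (p ^ M)) *
      ((sA (A i) (-(p : ℤ)) / (p : ℤ) ^ 2 : ℤ) : ZMod (p ^ M))) * hbp
  simp_rw [hterm]
  have hginj : Function.Injective g := by
    intro i j hij
    by_contra hne
    apply hinj i j hne
    apply Int.ModEq.dvd
    unfold Int.ModEq
    rw [← hgcast, ← hgcast, hij]
  have himg : Finset.univ.image g = Finset.range (p ^ 2) := by
    apply Finset.eq_of_subset_of_card_le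
    · intro x hx
      rw [Finset.mem_image] at hx
      obtain ⟨i, _, rfl⟩ := hx
      rw [Finset.mem_range]
      have h1 := Int.emod_lt_of_pos (sA (A i) (-(p : ℤ))) hp2
      rw [← hgcast] at h1
      exact_mod_cast h1
    · rw [Finset.card_range, Finset.card_image_of_injective _ hginj, Finset.card_univ, hq]
  rw [← hlow, ← himg, Finset.sum_image (fun x _ y _ h => hginj h)]

theorem w_zero (A : ι → Finset ℕ) (hq : Fintype.card ι = p ^ 2)
    (hinj : ∀ i j, i ≠ j → ¬ ((p : ℤ) ^ 2 ∣ sA (A i) (-(p : ℤ)) - sA (A j) (-(p : ℤ))))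
    (hM : 2 ≤ M) : ∀ (d K c : ℕ) (β : ZMod (p ^ M)), IsUnit β → 1 ≤ d → d ≤ M → d ≤ K → p ∣ c →
      (∀ i, 1 ≤ i → i < d → ¬ p ^ 2 ∣ c + p * i) →
      w p A K ((p : ZMod (p ^ M)) ^ (M - d) * β) (c : ZMod (p ^ M)) = 0 := by
  intro d
  induction d with
  | zero => intro K c β _ h; omega
  | succ d ih =>
    intro K c β hβ _ hdM hdK hc hj
    obtain ⟨K, rfl⟩ : ∃ K', K = K' + 1 := ⟨K - 1, by omega⟩
    simp only [w]
    obtain ⟨c', hc'⟩ := hc
    by_cases hd : d = 0
    · subst hd
      have h1 := F_zero A hq hinj hM β hβ (c : ZMod (p ^ M)) (c' : ZMod (p ^ M)) (by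
        rw [hc']
        push_cast
        ring)
      unfold phi
      rw [show M - (0 + 1) = M - 1 by omega, h1]
      simp
    · have hp0 : 0 < p := hp.out.pos
      have hp1 : p - 1 + 1 = p := Nat.sub_add_cancel hp.out.one_le
      have h1 := hj 1 le_rfl (by omega)
      rw [mul_one] at h1
      have hdvd : p ∣ c + p := ⟨c' + 1, by rw [hc']; ring⟩
      obtain ⟨u, hu⟩ := hdvd
      have hup : ¬ p ∣ u := by
        rintro ⟨k, hk⟩
        apply h1
        exact ⟨k, by rw [hu, hk]; ring⟩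
      have hasc : asc (c : ZMod (p ^ M)) p = (p : ZMod (p ^ M)) *
          ((u : ZMod (p ^ M)) * asc (c : ZMod (p ^ M)) (p - 1)) := by
        have h3 := asc_last (c : ZMod (p ^ M)) (p - 1)
        rw [hp1] at h3
        rw [h3]
        have h4 : (c : ZMod (p ^ M)) + (p : ZMod (p ^ M)) = (p : ZMod (p ^ M)) * u := by
          have := congrArg (fun n : ℕ => (n : ZMod (p ^ M))) hu
          push_cast at this
          exact this
        rw [h4]
        ring
      have hunit2 : IsUnit (asc (c : ZMod (p ^ M)) (p - 1)) := by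
        rw [hc']
        push_cast
        exact unit_asc _ (by omega)
      have hcast : (c : ZMod (p ^ M)) + (p : ZMod (p ^ M)) = ((c + p : ℕ) : ZMod (p ^ M)) := by
        push_cast
        ring
      have hnext := ih K (c + p) (β * ((u : ZMod (p ^ M)) * asc (c : ZMod (p ^ M)) (p - 1)))
        (hβ.mul ((unit_natCast hup).mul hunit2)) (by omega) (by omega) (by omega)
        ⟨u, hu⟩ (by
          intro i hi1 hi2
          have := hj (i + 1) (by omega) (by omega)
          rw [show c + p + p * i = c + p * (i + 1) by ring]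
          exact this)
      rw [hasc, hcast]
      have e : (p : ZMod (p ^ M)) ^ (M - (d + 1)) * β * ((p : ZMod (p ^ M)) *
          ((u : ZMod (p ^ M)) * asc (c : ZMod (p ^ M)) (p - 1)))
          = (p : ZMod (p ^ M)) ^ (M - d) *
            (β * ((u : ZMod (p ^ M)) * asc (c : ZMod (p ^ M)) (p - 1))) := by
        have : (p : ZMod (p ^ M)) ^ (M - d) = (p : ZMod (p ^ M)) ^ (M - (d + 1)) * p := by
          rw [← pow_succ]
          congr 1
          omega
        rw [this]
        ring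
      rw [e, hnext, mul_zero]

theorem W_zero (A : ι → Finset ℕ) (hq : Fintype.card ι = p ^ 2)
    (hinj : ∀ i j, i ≠ j → ¬ ((p : ℤ) ^ 2 ∣ sA (A i) (-(p : ℤ)) - sA (A j) (-(p : ℤ))))
    (hM : 2 ≤ M) (v K m : ℕ) (hv : v < M) (hd : M - v < p) (hK : M - v ≤ K) (hm : p ^ 2 ∣ m) :
    W A K v (m : ZMod (p ^ M)) = 0 := by
  unfold W
  apply Finset.sum_eq_zero
  intro b hb
  rw [Finset.mem_filter] at hb
  obtain ⟨_, hb0, hbv⟩ := hb
  have h0 : b.val ≠ 0 := by
    rw [Ne, ZMod.val_eq_zero]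
    exact hb0
  have h2 : p ^ v ∣ b.val := by
    rw [← hbv]
    exact pow_padicValNat_dvd
  obtain ⟨j, hj⟩ := h2
  have hjp : ¬ p ∣ j := by
    intro h
    have h4 : p ^ (v + 1) ∣ b.val := by
      rw [hj, pow_succ]
      exact mul_dvd_mul_left _ h
    rw [← hbv] at h4
    exact pow_succ_padicValNat_not_dvd h0 h4
  have hb' : b = (p : ZMod (p ^ M)) ^ (M - (M - v)) * (j : ZMod (p ^ M)) := by
    rw [show M - (M - v) = v by omega]
    have h4 := congrArg (fun n : ℕ => (n : ZMod (p ^ M))) hj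
    rw [ZMod.natCast_zmod_val] at h4
    push_cast at h4
    exact h4
  rw [hb']
  apply w_zero A hq hinj hM (M - v) K m _ (unit_natCast hjp) (by omega) (by omega) hK
    ((dvd_pow_self p two_ne_zero).trans hm)
  intro i hi1 hi2 h
  rw [Nat.dvd_add_right hm, sq] at h
  have := Nat.dvd_of_mul_dvd_mul_left hp.out.pos h
  exact absurd (Nat.le_of_dvd (by omega) this) (by omega)

end Low

end Pool.Agent.Helper191_Long
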