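import Pool.Agent.Helper191_Long.Union

set_option autoImplicit false

namespace Pool.Agent.Helper191_Long

open Pool.Agent.Helper191_Fac

theorem fact61 : Fact (Nat.Prime 61) := ⟨by norm_num⟩

attribute [local instance] fact61

theorem small_pow (t : ℕ) (ht : 3 ≤ t) : 5246 * t ≤ 61 ^ t := by
  induction t, ht using Nat.le_induction with
  | base => norm_num
  | succ t ht ih =>
    rw [pow_succ]
    omega

theorem small_D (D : ℕ) (hD : 8 ≤ D) : 732 * D * 2 ^ D ≤ 61 ^ (D - 4) := by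
  obtain ⟨n, rfl⟩ := Nat.exists_eq_add_of_le hD
  rw [show 8 + n - 4 = n + 4 by omega]
  induction n with
  | zero => norm_num
  | succ n ih =>
    have ih' := ih (by omega)
    have e1 : 732 * (8 + (n + 1)) * 2 ^ (8 + (n + 1)) = 2 * (732 * (8 + (n + 1))) * 2 ^ (8 + n) := by
      rw [show 8 + (n + 1) = (8 + n) + 1 by ring, pow_succ]
      ring
    have e2 : 2 * (732 * (8 + (n + 1))) ≤ 61 * (732 * (8 + n)) := by omega
    calc 732 * (8 + (n + 1)) * 2 ^ (8 + (n + 1))
        = 2 * (732 * (8 + (n + 1))) * 2 ^ (8 + n) := e1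
      _ ≤ 61 * (732 * (8 + n)) * 2 ^ (8 + n) := Nat.mul_le_mul_right _ e2
      _ = 61 * (732 * (8 + n) * 2 ^ (8 + n)) := by ring
      _ ≤ 61 * 61 ^ (n + 4) := Nat.mul_le_mul_left _ ih'
      _ = 61 ^ (n + 1 + 4) := by ring

theorem half_sum (n : ℕ) : ∑ v ∈ Finset.range n, ((1 : ℝ) / 2) ^ (n - v) ≤ 1 := by
  induction n with
  | zero => simp
  | succ n ih =>
    rw [Finset.sum_range_succ]
    have h1 : ∀ v ∈ Finset.range n, ((1 : ℝ) / 2) ^ (n + 1 - v) = (1 / 2) * (1 / 2) ^ (n - v) := by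
      intro v hv
      rw [Finset.mem_range] at hv
      rw [← pow_succ']
      congr 1
      omega
    rw [Finset.sum_congr rfl h1, ← Finset.mul_sum]
    rw [show n + 1 - n = 1 by omega]
    linarith

/-- The condition of admissibility. -/
def Adm (t m : ℕ) : Prop := 61 ^ 2 ∣ m ∧
  (∀ D ∈ Finset.Ico 8 (5 * t + 3), m % 61 ^ D + 732 * D < 61 ^ D) ∧
  m % 61 ^ (10 * t + 3) + 61 ^ (10 * t) < 61 ^ (10 * t + 3)

open Classical in
/-- The admissible starting residues. -/
noncomputable def Sset (t : ℕ) : Finset ℕ := (Finset.range (61 ^ (160 * t))).filter (Adm t)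

open Classical in
theorem mem_Sset {t m : ℕ} : m ∈ Sset t ↔ m < 61 ^ (160 * t) ∧ 61 ^ 2 ∣ m ∧
    (∀ D ∈ Finset.Ico 8 (5 * t + 3), m % 61 ^ D + 732 * D < 61 ^ D) ∧
    m % 61 ^ (10 * t + 3) + 61 ^ (10 * t) < 61 ^ (10 * t + 3) := by
  unfold Sset
  rw [Finset.mem_filter, Finset.mem_range]
  rfl

variable {ι : Type*} [Fintype ι]

theorem pow_div_le {M v k x : ℕ} (h : 2 * M - v ≤ x + 2 * k) :
    (61 : ℝ) ^ (2 * M - v) / ((61 ^ 2 : ℕ) : ℝ) ^ k ≤ 61 ^ x := by
  have e : ((61 ^ 2 : ℕ) : ℝ) = (61 : ℝ) ^ 2 := by norm_num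
  rw [e, ← pow_mul, div_le_iff₀ (by positivity), ← pow_add]
  exact pow_le_pow_right₀ (by norm_num) h

/-- High orders, any window. -/
theorem bound_high (A : ι → Finset ℕ) (hq : Fintype.card ι = 61 ^ 2)
    (hinj : ∀ i j, i ≠ j → ¬ (((61 : ℕ) : ℤ) ^ 2 ∣ sA (A i) (-((61 : ℕ) : ℤ))
      - sA (A j) (-((61 : ℕ) : ℤ))))
    (t : ℕ) (ht : 3 ≤ t) (v : ℕ) (hv : v ≤ 100 * t) (j : ℕ) (hj : j < 61 ^ (9 * t)) :
    ∑ m ∈ Sset t, W (p := 61) (M := 160 * t) A (86 * t) v
      (((m + 61 * (86 * t) * j : ℕ)) : ZMod (61 ^ (160 * t))) ≤ (61 : ℝ) ^ (148 * t) := by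
  set d := 160 * t - v with hd
  set k := min (86 * t) (d - 20 * t - 7 - d / 60) with hk
  have hsm := small_pow t ht
  have hshift : 61 * (86 * t) * j + 61 * (86 * t) ≤ 61 ^ (10 * t) := by
    calc 61 * (86 * t) * j + 61 * (86 * t) = (5246 * t) * (j + 1) := by ring
      _ ≤ 61 ^ t * 61 ^ (9 * t) := Nat.mul_le_mul hsm hj
      _ = 61 ^ (10 * t) := by
        rw [← pow_add]
        congr 1
        ring
  have h := avg_set (p := 61) (M := 160 * t) A (by rw [hq]; norm_num) hinj (Sset t) (86 * t) k v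
    (10 * t + 3) (61 * (86 * t) * j) (by omega) (min_le_left _ _) (by
      have : (61 - 1 : ℕ) = 60 := rfl
      rw [this]
      omega) ⟨86 * t * j, by ring⟩ (by
      intro m hm
      rw [mem_Sset] at hm
      refine ⟨hm.1, (dvd_pow_self 61 two_ne_zero).trans hm.2.1, ?_⟩
      have h3 := hm.2.2.2
      have h4 : k ≤ 86 * t := min_le_left _ _
      omega)
  refine h.trans ?_
  rw [hq]
  apply pow_div_le
  omega

/-- Middle orders, first window. -/
theorem bound_mid (A : ι → Finset ℕ) (hq : Fintype.card ι = 61 ^ 2)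
    (hinj : ∀ i j, i ≠ j → ¬ (((61 : ℕ) : ℤ) ^ 2 ∣ sA (A i) (-((61 : ℕ) : ℤ))
      - sA (A j) (-((61 : ℕ) : ℤ))))
    (t : ℕ) (ht : 3 ≤ t) (v : ℕ) (hv : 100 * t < v) (hv2 : v + 61 ≤ 160 * t) :
    ∑ m ∈ Sset t, W (p := 61) (M := 160 * t) A (86 * t) v
      (((m + 0 : ℕ)) : ZMod (61 ^ (160 * t)))
      ≤ (61 : ℝ) ^ (160 * t - 8) * (1 / 2) ^ (160 * t - v) := by
  set d := 160 * t - v with hd
  set k := d - 2 * (d / 12) - 7 - d / 60 with hk
  have h := avg_set (p := 61) (M := 160 * t) A (by rw [hq]; norm_num) hinj (Sset t) (86 * t) k v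
    (d / 12 + 3) 0 (by omega) (by omega) (by
      have : (61 - 1 : ℕ) = 60 := rfl
      rw [this]
      omega) (dvd_zero _) (by
      intro m hm
      rw [mem_Sset] at hm
      refine ⟨hm.1, (dvd_pow_self 61 two_ne_zero).trans hm.2.1, ?_⟩
      have h3 := hm.2.2.1 (d / 12 + 3) (by rw [Finset.mem_Ico]; omega)
      omega)
  refine h.trans ?_
  rw [hq]
  set x := 2 * k - d - 8 with hx
  have hx5 : d ≤ 5 * x := by omega
  have h1 : (61 : ℝ) ^ (2 * (160 * t) - v) / ((61 ^ 2 : ℕ) : ℝ) ^ k ≤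
      (61 : ℝ) ^ (160 * t - 8) / 61 ^ x := by
    have e : ((61 ^ 2 : ℕ) : ℝ) = (61 : ℝ) ^ 2 := by norm_num
    rw [e, ← pow_mul, div_le_div_iff₀ (by positivity) (by positivity), ← pow_add, ← pow_add]
    apply pow_le_pow_right₀ (by norm_num)
    omega
  refine h1.trans ?_
  rw [one_div, inv_pow, ← div_eq_mul_inv]
  apply div_le_div_of_nonneg_left (by positivity) (by positivity)
  calc (2 : ℝ) ^ d ≤ 2 ^ (5 * x) := pow_le_pow_right₀ (by norm_num) hx5
    _ = 32 ^ x := by rw [pow_mul]; norm_num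
    _ ≤ 61 ^ x := pow_le_pow_left₀ (by norm_num) (by norm_num) _

theorem bound_all (A : ι → Finset ℕ) (hq : Fintype.card ι = 61 ^ 2)
    (hinj : ∀ i j, i ≠ j → ¬ (((61 : ℕ) : ℤ) ^ 2 ∣ sA (A i) (-((61 : ℕ) : ℤ))
      - sA (A j) (-((61 : ℕ) : ℤ))))
    (t : ℕ) (ht : 3 ≤ t) (v : ℕ) (hv : v < 160 * t) :
    ∑ m ∈ Sset t, W (p := 61) (M := 160 * t) A (86 * t) v ((m : ℕ) : ZMod (61 ^ (160 * t)))
      ≤ (61 : ℝ) ^ (160 * t - 8) * (1 / 2) ^ (160 * t - v) + 61 ^ (148 * t) := by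
  by_cases h1 : v ≤ 100 * t
  · have h2 := bound_high A hq hinj t ht v h1 0 (by positivity)
    simp only [mul_zero, add_zero] at h2
    have : (0 : ℝ) ≤ (61 : ℝ) ^ (160 * t - 8) * (1 / 2) ^ (160 * t - v) := by positivity
    linarith
  · push Not at h1
    by_cases h2 : v + 61 ≤ 160 * t
    · have h3 := bound_mid A hq hinj t ht v h1 h2
      simp only [add_zero] at h3
      have : (0 : ℝ) ≤ (61 : ℝ) ^ (148 * t) := by positivity
      linarith
    · have h3 : ∑ m ∈ Sset t, W (p := 61) (M := 160 * t) A (86 * t) v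
          ((m : ℕ) : ZMod (61 ^ (160 * t))) = 0 := by
        apply Finset.sum_eq_zero
        intro m hm
        rw [mem_Sset] at hm
        exact W_zero A hq hinj (by omega) v (86 * t) m hv (by omega) (by omega) hm.2.1
      rw [h3]
      positivity

/-- The total error in the first window. -/
noncomputable def E0 (t m : ℕ) : ℝ := ∑ v ∈ Finset.range (160 * t),
  (W (p := 61) (M := 160 * t) famA (86 * t) v ((m : ℕ) : ZMod (61 ^ (160 * t)))
    + W (p := 61) (M := 160 * t) famB (86 * t) v ((m : ℕ) : ZMod (61 ^ (160 * t))))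

/-- The total error in a later window. -/
noncomputable def E1 (t m : ℕ) : ℝ := ∑ v ∈ Finset.range (100 * t),
  (W (p := 61) (M := 160 * t) famA (86 * t) v ((m : ℕ) : ZMod (61 ^ (160 * t)))
    + W (p := 61) (M := 160 * t) famB (86 * t) v ((m : ℕ) : ZMod (61 ^ (160 * t))))

theorem sum_E0 (t : ℕ) (ht : 3 ≤ t) :
    ∑ m ∈ Sset t, E0 t m ≤ 2 * (61 ^ (160 * t - 8) + 160 * t * 61 ^ (148 * t)) := by
  unfold E0
  rw [Finset.sum_comm]
  have h1 : ∀ v ∈ Finset.range (160 * t), ∑ m ∈ Sset t,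
      (W (p := 61) (M := 160 * t) famA (86 * t) v ((m : ℕ) : ZMod (61 ^ (160 * t)))
      + W (p := 61) (M := 160 * t) famB (86 * t) v ((m : ℕ) : ZMod (61 ^ (160 * t))))
      ≤ 2 * ((61 : ℝ) ^ (160 * t - 8) * (1 / 2) ^ (160 * t - v) + 61 ^ (148 * t)) := by
    intro v hv
    rw [Finset.mem_range] at hv
    rw [Finset.sum_add_distrib]
    have a := bound_all famA card_index famA_inj t ht v hv
    have b := bound_all famB card_index famB_inj t ht v hv
    linarith
  refine (Finset.sum_le_sum h1).trans ?_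
  rw [← Finset.mul_sum, Finset.sum_add_distrib, ← Finset.mul_sum, Finset.sum_const,
    Finset.card_range, nsmul_eq_mul]
  push_cast
  have h2 : (61 : ℝ) ^ (160 * t - 8) * ∑ i ∈ Finset.range (160 * t), ((1 : ℝ) / 2) ^ (160 * t - i)
      ≤ 61 ^ (160 * t - 8) * 1 := mul_le_mul_of_nonneg_left (half_sum _) (by positivity)
  linarith

theorem sum_E1 (t : ℕ) (ht : 3 ≤ t) (j : ℕ) (hj : j < 61 ^ (9 * t)) :
    ∑ m ∈ Sset t, E1 t (m + 61 * (86 * t) * j) ≤ 2 * (100 * t * 61 ^ (148 * t)) := by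
  unfold E1
  rw [Finset.sum_comm]
  have h1 : ∀ v ∈ Finset.range (100 * t), ∑ m ∈ Sset t,
      (W (p := 61) (M := 160 * t) famA (86 * t) v
        (((m + 61 * (86 * t) * j : ℕ)) : ZMod (61 ^ (160 * t)))
      + W (p := 61) (M := 160 * t) famB (86 * t) v
        (((m + 61 * (86 * t) * j : ℕ)) : ZMod (61 ^ (160 * t))))
      ≤ 2 * (61 : ℝ) ^ (148 * t) := by
    intro v hv
    rw [Finset.mem_range] at hv
    rw [Finset.sum_add_distrib]
    have a := bound_high famA card_index famA_inj t ht v hv.le j hj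
    have b := bound_high famB card_index famB_inj t ht v hv.le j hj
    linarith
  refine (Finset.sum_le_sum h1).trans ?_
  rw [Finset.sum_const, Finset.card_range, nsmul_eq_mul]
  push_cast
  apply le_of_eq
  ring

open Classical in
/-- The good starting residues. -/
noncomputable def Good (t : ℕ) : Finset ℕ := (Sset t).filter (fun m => E0 t m < 2 ∧
  ∀ j < 61 ^ (9 * t), E1 t (m + 61 * (86 * t) * j) < 2)

theorem W_cast (A : ι → Finset ℕ) (K v M a b : ℕ) (h : a ≡ b [MOD 61 ^ M]) :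
    W (p := 61) (M := M) A K v ((a : ℕ) : ZMod (61 ^ M))
      = W (p := 61) (M := M) A K v ((b : ℕ) : ZMod (61 ^ M)) := by
  rw [(ZMod.natCast_eq_natCast_iff a b _).mpr h]

theorem window_sum (t L a : ℕ) :
    ∑ b ∈ Finset.univ.filter (fun b : ZMod (61 ^ (160 * t)) => ¬ 61 ^ L ∣ b.val),
      (w 61 famA (86 * t) b (a : ZMod (61 ^ (160 * t)))
        + w 61 famB (86 * t) b (a : ZMod (61 ^ (160 * t))))
      = ∑ v ∈ Finset.range L,
        (W (p := 61) (M := 160 * t) famA (86 * t) v ((a : ℕ) : ZMod (61 ^ (160 * t)))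
        + W (p := 61) (M := 160 * t) famB (86 * t) v ((a : ℕ) : ZMod (61 ^ (160 * t)))) := by
  rw [sum_orders (p := 61) (M := 160 * t)]
  apply Finset.sum_congr rfl
  intro v _
  rw [Finset.sum_add_distrib]
  rfl

theorem chain (t : ℕ) (ht : 3 ≤ t) (a : ℕ) (ha : a % 61 ^ (160 * t) ∈ Good t) (j : ℕ)
    (hj : j < 61 ^ (9 * t)) : Full 61 a (a + 61 * (86 * t) * (j + 1)) (60 * t) := by
  classical
  unfold Good at ha
  rw [Finset.mem_filter, mem_Sset] at ha
  obtain ⟨⟨hlt, hsq, _, htop⟩, h0, h1⟩ := ha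
  have hsm := small_pow t ht
  have hmod : a ≡ a % 61 ^ (160 * t) [MOD 61 ^ (160 * t)] := (Nat.mod_modEq _ _).symm
  rw [Nat.mod_mod_of_dvd _ (pow_dvd_pow 61 (show 10 * t + 3 ≤ 160 * t by omega))] at htop
  have hsqa : 61 ^ 2 ∣ a := (Nat.dvd_mod_iff (pow_dvd_pow 61 (by omega))).mp hsq
  have h61a : 61 ∣ a := (dvd_pow_self 61 two_ne_zero).trans hsqa
  -- valuation bound in each window
  have hV : ∀ j < 61 ^ (9 * t), V 61 (a + 61 * (86 * t) * j) (86 * t) + 60 * t ≤ 160 * t := by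
    intro j hj
    have hshift : 61 * (86 * t) * j + 61 * (86 * t) ≤ 61 ^ (10 * t) := by
      calc 61 * (86 * t) * j + 61 * (86 * t) = (5246 * t) * (j + 1) := by ring
        _ ≤ 61 ^ t * 61 ^ (9 * t) := Nat.mul_le_mul hsm hj
        _ = 61 ^ (10 * t) := by
          rw [← pow_add]
          congr 1
          ring
    have hm : (a + 61 * (86 * t) * j) % 61 ^ (10 * t + 3)
        = a % 61 ^ (10 * t + 3) + 61 * (86 * t) * j := by
      rw [Nat.add_mod, Nat.mod_eq_of_lt (show 61 * (86 * t) * j < 61 ^ (10 * t + 3) by omega),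
        Nat.mod_eq_of_lt (by omega)]
    have hlt2 : (a + 61 * (86 * t) * j) % 61 ^ (10 * t + 3) + 61 * (86 * t)
        < 61 ^ (10 * t + 3) := by
      rw [hm]
      omega
    rw [V_mod (p := 61) (D := 10 * t + 3) hlt2]
    have hdv : 61 ∣ (a + 61 * (86 * t) * j) % 61 ^ (10 * t + 3) := by
      rw [Nat.dvd_mod_iff (dvd_pow_self 61 (by omega))]
      exact dvd_add h61a ⟨86 * t * j, by ring⟩
    have := V_le (p := 61) (D := 10 * t + 3) hdv hlt2
    have e : (61 - 1 : ℕ) = 60 := rfl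
    rw [e] at this
    omega
  have hq : 0 < Fintype.card (Fin 61 × Fin 61) := by
    rw [card_index]
    norm_num
  induction j with
  | zero =>
    have h := window (p := 61) (M := 160 * t) famA famB hq (fun i r hr => famA_lt i r hr)
      (fun i r hr => famB_lt i r hr) famA_zero famB_zero fam_disj a a (86 * t) 0 (60 * t)
      (by omega) h61a (by
        have := hV 0 hj
        simpa using this) (by
        rw [Nat.sub_zero, window_sum]
        refine lt_of_le_of_lt (le_of_eq ?_) h0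
        unfold E0
        apply Finset.sum_congr rfl
        intro v _
        rw [W_cast famA _ _ _ _ _ hmod, W_cast famB _ _ _ _ _ hmod]) le_rfl (full_zero 61 a)
    have e : a + 61 * (86 * t) * (0 + 1) = a + 61 * (86 * t) := by ring
    rw [e]
    exact h
  | succ j ih =>
    have hj' : j < 61 ^ (9 * t) := by omega
    have ih' := ih hj'
    set m := a + 61 * (86 * t) * (j + 1) with hm
    have h := window (p := 61) (M := 160 * t) famA famB hq (fun i r hr => famA_lt i r hr)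
      (fun i r hr => famB_lt i r hr) famA_zero famB_zero fam_disj a m (86 * t) (60 * t) (60 * t)
      (by omega) (dvd_add h61a ⟨86 * t * (j + 1), by ring⟩) (hV (j + 1) hj) (by
        rw [show 160 * t - 60 * t = 100 * t by omega, window_sum]
        refine lt_of_le_of_lt (le_of_eq ?_) (h1 (j + 1) hj)
        unfold E1
        apply Finset.sum_congr rfl
        intro v _
        have hmod2 : m ≡ a % 61 ^ (160 * t) + 61 * (86 * t) * (j + 1) [MOD 61 ^ (160 * t)] :=
          Nat.ModEq.add_right _ hmod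
        rw [W_cast famA _ _ _ _ _ hmod2, W_cast famB _ _ _ _ _ hmod2]) (by omega) ih'
    have e : a + 61 * (86 * t) * (j + 1 + 1) = m + 61 * (86 * t) := by
      rw [hm]
      ring
    rw [e]
    exact h

end Pool.Agent.Helper191_Long
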