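import Pool.Agent.Helper191_Fac.Poly

set_option autoImplicit false

namespace Pool.Agent.Helper191_Long

open Polynomial Pool.Agent.Helper191_Fac

section Ring
variable {R : Type*} [CommRing R]

/-- The sum of `(z+1)...(z+r)` over `r` in `A`. -/
def sA (A : Finset ℕ) (z : R) : R := ∑ r ∈ A, asc z r

/-- The polynomial whose values are `sA A`. -/
noncomputable def sP (R : Type*) [CommRing R] (A : Finset ℕ) : R[X] := ∑ r ∈ A, ascP R r

theorem eval_sP (A : Finset ℕ) (z : R) : (sP R A).eval z = sA A z := by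
  unfold sP sA
  rw [eval_finsetSum]
  exact Finset.sum_congr rfl fun i _ => eval_ascP z i

/-- The scaling identity. -/
theorem key_poly (f : R[X]) (b y u ui P : R) (hu : u * ui = 1) (h : b * y * (y * ui - y) = 0) :
    b * u * f.eval (y * ui - P) = b * f.eval (y - P) + b * (u - 1) * f.eval (-P) := by
  obtain ⟨g, hg⟩ : ∃ g : R[X], ∀ z : R, f.eval (z - P) = g.eval z * z + f.eval (-P) := by
    refine ⟨divX (f.comp (X - C P)), fun z => ?_⟩
    have h1 := congrArg (fun q => q.eval z) (divX_mul_X_add (f.comp (X - C P)))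
    simp only [eval_add, eval_mul, eval_X, eval_C, eval_comp, eval_sub] at h1
    rw [← h1, coeff_zero_eq_eval_zero]
    simp
  rw [hg (y * ui), hg y]
  obtain ⟨k, hk⟩ := sub_dvd_eval_sub (y * ui) y g
  have e : g.eval (y * ui) = g.eval y + (y * ui - y) * k := by rw [← hk]; ring
  rw [e]
  have h2 : b * u * ((eval y g + (y * ui - y) * k) * (y * ui) + eval (-P) f)
      = b * eval y g * y * (u * ui) + (b * y * (y * ui - y)) * k * (u * ui)
        + b * u * eval (-P) f := by ring
  rw [h2, hu, h]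
  ring

theorem key_sA (A : Finset ℕ) (b y u ui P : R) (hu : u * ui = 1)
    (h : b * y * (y * ui - y) = 0) :
    b * u * sA A (y * ui - P) = b * sA A (y - P) + b * (u - 1) * sA A (-P) := by
  rw [← eval_sP, ← eval_sP, ← eval_sP]
  exact key_poly _ b y u ui P hu h

theorem sA_congr (A : Finset ℕ) (b z z' : R) (h : b * (z - z') = 0) :
    b * sA A z = b * sA A z' := by
  rw [← eval_sP, ← eval_sP]
  obtain ⟨k, hk⟩ := sub_dvd_eval_sub z z' (sP R A)
  have : b * eval z (sP R A) - b * eval z' (sP R A) = 0 := by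
    rw [← mul_sub, hk, ← mul_assoc, h, zero_mul]
  exact sub_eq_zero.mp this

theorem asc_congr (r : ℕ) (b z z' : R) (h : b * (z - z') = 0) :
    b * asc z r = b * asc z' r := by
  have := sA_congr {r} b z z' h
  simpa [sA] using this

theorem asc_last (z : R) (n : ℕ) : asc z (n + 1) = (z + ((n + 1 : ℕ) : R)) * asc z n := by
  rw [asc_succ]
  push_cast
  ring

/-- The second invariance. -/
theorem key_asc (n : ℕ) (b y u ui : R) (hu : u * ui = 1)
    (h : b * y * (y * ui - y) = 0) :
    b * u * asc (y * ui - ((n + 1 : ℕ) : R)) (n + 1) = b * asc (y - ((n + 1 : ℕ) : R)) (n + 1) := by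
  rw [asc_last, asc_last]
  have h1 : b * y * asc (y * ui - ((n + 1 : ℕ) : R)) n = b * y * asc (y - ((n + 1 : ℕ) : R)) n := by
    apply asc_congr
    rw [← h]
    ring
  calc b * u * ((y * ui - ((n + 1 : ℕ) : R) + ((n + 1 : ℕ) : R))
          * asc (y * ui - ((n + 1 : ℕ) : R)) n)
      = (u * ui) * (b * y * asc (y * ui - ((n + 1 : ℕ) : R)) n) := by ring
    _ = b * y * asc (y - ((n + 1 : ℕ) : R)) n := by rw [hu, one_mul, h1]
    _ = _ := by ring

/-- The third invariance. -/
theorem key_move (n : ℕ) (b y ui : R) (h : b * y * (y * ui - y) = 0) :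
    b * asc (y - ((n + 1 : ℕ) : R)) (n + 1) * (y * ui - y) = 0 := by
  rw [asc_last]
  calc b * ((y - ((n + 1 : ℕ) : R) + ((n + 1 : ℕ) : R)) * asc (y - ((n + 1 : ℕ) : R)) n)
        * (y * ui - y)
      = (b * y * (y * ui - y)) * asc (y - ((n + 1 : ℕ) : R)) n := by ring
    _ = 0 := by rw [h, zero_mul]

end Ring

end Pool.Agent.Helper191_Long
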