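import Pool.Agent.Helper191_Long.Char
import Pool.Agent.Helper191_Fac.Order

set_option autoImplicit false

namespace Pool.Agent.Helper191_Long

open Pool.Agent.Helper191_Fac

section Step
variable {p M : ℕ} [hp : Fact p.Prime]

omit hp in
theorem pM_zero : ((p : ZMod (p ^ M))) ^ M = 0 := by
  have := ZMod.natCast_self (p ^ M)
  push_cast at this
  exact this

omit hp in
theorem pow_zero_of_le {e : ℕ} (h : M ≤ e) : ((p : ZMod (p ^ M))) ^ e = 0 := by
  obtain ⟨k, rfl⟩ := Nat.exists_eq_add_of_le h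
  rw [pow_add, pM_zero, zero_mul]

omit hp in
theorem nilp (z : ZMod (p ^ M)) : IsNilpotent ((p : ZMod (p ^ M)) * z) :=
  ⟨M, by rw [mul_pow, pM_zero, zero_mul]⟩

omit hp in
theorem unit_add {a : ZMod (p ^ M)} (ha : IsUnit a) (z : ZMod (p ^ M)) :
    IsUnit (a + (p : ZMod (p ^ M)) * z) :=
  (nilp z).isUnit_add_left_of_commute ha (Commute.all _ _)

theorem unit_natCast {j : ℕ} (hj : ¬ p ∣ j) : IsUnit ((j : ℕ) : ZMod (p ^ M)) := by
  rw [ZMod.isUnit_iff_coprime]
  exact Nat.Coprime.pow_right _ ((Nat.Prime.coprime_iff_not_dvd hp.out).mpr hj).symm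

theorem unit_asc (c : ZMod (p ^ M)) {r : ℕ} (hr : r < p) :
    IsUnit (asc ((p : ZMod (p ^ M)) * c) r) := by
  unfold asc
  apply Finset.prod_induction _ (fun x => IsUnit x) (fun a b ha hb => ha.mul hb) isUnit_one
  intro j hj
  rw [Finset.mem_range] at hj
  rw [add_comm]
  apply unit_add
  have : IsUnit ((((j + 1 : ℕ)) : ZMod (p ^ M))) := by
    apply unit_natCast
    intro h
    exact absurd (Nat.le_of_dvd (by omega) h) (by omega)
  push_cast at this
  exact this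

variable {ι : Type*} [Fintype ι]

/-- The sum of `w` over the class of `c` modulo `p ^ D` (with multiplicity) and over the
frequencies of valuation `v` (with multiplicity). -/
noncomputable def T (A : ι → Finset ℕ) (k v D : ℕ) (c : ZMod (p ^ M)) : ℝ :=
  ∑ t : ZMod (p ^ M), ∑ β : (ZMod (p ^ M))ˣ,
    w p A k ((p : ZMod (p ^ M)) ^ v * (β : ZMod (p ^ M))) (c + (p : ZMod (p ^ M)) ^ D * t)

theorem T_push (A : ι → Finset ℕ) (k v D s : ℕ) (hsD : s < D) (hD : 1 ≤ D)
    (c c' c'' : ZMod (p ^ M)) (hc : c = p * c'') (hc' : IsUnit c')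
    (hcc : c + p = (p : ZMod (p ^ M)) ^ s * c') :
    ∑ t : ZMod (p ^ M), ∑ β : (ZMod (p ^ M))ˣ,
      w p A k ((p : ZMod (p ^ M)) ^ v * (β : ZMod (p ^ M)) * asc (c + (p : ZMod (p ^ M)) ^ D * t) p)
        (c + (p : ZMod (p ^ M)) ^ D * t + (p : ZMod (p ^ M))) = T A k (v + s) D (c + (p : ZMod (p ^ M))) := by
  unfold T
  apply Finset.sum_congr rfl
  intro t _
  set z : ZMod (p ^ M) := c + (p : ZMod (p ^ M)) ^ D * t with hz
  have hp1 : p - 1 + 1 = p := Nat.sub_add_cancel hp.out.one_le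
  have h1 : z + p = (p : ZMod (p ^ M)) ^ s * (c' + p * ((p : ZMod (p ^ M)) ^ (D - s - 1) * t)) := by
    have e : D = s + 1 + (D - s - 1) := by omega
    calc z + p = (c + p) + (p : ZMod (p ^ M)) ^ D * t := by rw [hz]; ring
      _ = _ := by
        rw [hcc]
        conv_lhs => rw [e]
        rw [pow_add, pow_add]
        ring
  have hu1 : IsUnit (c' + p * ((p : ZMod (p ^ M)) ^ (D - s - 1) * t)) := unit_add hc' _
  have hu2 : IsUnit (asc z (p - 1)) := by
    have : z = p * (c'' + (p : ZMod (p ^ M)) ^ (D - 1) * t) := by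
      rw [hz, hc]
      have e : D = (D - 1) + 1 := by omega
      conv_lhs => rw [e]
      rw [pow_succ]
      ring
    rw [this]
    exact unit_asc _ (by have := hp.out.one_le; omega)
  have h2 : asc z p = (p : ZMod (p ^ M)) ^ s *
      ((c' + p * ((p : ZMod (p ^ M)) ^ (D - s - 1) * t)) * asc z (p - 1)) := by
    have h3 := asc_last z (p - 1)
    rw [hp1, h1] at h3
    rw [h3]
    ring
  set U := (hu1.mul hu2).unit with hU
  have hUv : (U : ZMod (p ^ M)) =
      (c' + p * ((p : ZMod (p ^ M)) ^ (D - s - 1) * t)) * asc z (p - 1) := IsUnit.unit_spec _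
  rw [← Equiv.sum_comp (Equiv.mulRight U) (fun β : (ZMod (p ^ M))ˣ =>
    w p A k ((p : ZMod (p ^ M)) ^ (v + s) * (β : ZMod (p ^ M))) (c + (p : ZMod (p ^ M)) + (p : ZMod (p ^ M)) ^ D * t))]
  apply Finset.sum_congr rfl
  intro β _
  congr 1
  · rw [h2, ← hUv]
    simp only [Equiv.coe_mulRight, Units.val_mul]
    ring
  · rw [hz]
    ring

theorem sum_phi (A : ι → Finset ℕ) (hq : 0 < Fintype.card ι)
    (hinj : ∀ i j, i ≠ j → ¬ ((p : ℤ) ^ 2 ∣ sA (A i) (-(p : ℤ)) - sA (A j) (-(p : ℤ))))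
    (v s : ℕ) (hs : 1 ≤ s) (hv : v + 1 + s ≤ M) (y : ZMod (p ^ M))
    (hy : ∃ y', y = (p : ZMod (p ^ M)) ^ s * y') (β : (ZMod (p ^ M))ˣ)
    (u ui : ZMod (p ^ M) → ZMod (p ^ M))
    (hu : ∀ g, u g = 1 + (p : ZMod (p ^ M)) ^ (M - v - 1 - s) * g)
    (hui : ∀ g, u g * ui g = 1) :
    ∑ g : ZMod (p ^ M), phi A ((p : ZMod (p ^ M)) ^ v * (β : ZMod (p ^ M)) * u g)
      (y * ui g - (p : ZMod (p ^ M))) = (p ^ M : ℕ) / (Fintype.card ι : ℝ) := by
  set b : ZMod (p ^ M) := (p : ZMod (p ^ M)) ^ v * (β : ZMod (p ^ M)) with hb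
  set κ : ι → ZMod (p ^ M) := fun i =>
    b * (p : ZMod (p ^ M)) ^ (M - v - 1 - s) * sA (A i) (-(p : ZMod (p ^ M))) with hκ
  obtain ⟨y', hy'⟩ := hy
  have hcond : ∀ g, b * y * (y * ui g - y) = 0 := by
    intro g
    have e1 : y * ui g - y = - (y * ui g * ((p : ZMod (p ^ M)) ^ (M - v - 1 - s) * g)) := by
      have h := hui g
      rw [hu g] at h
      linear_combination y * h
    rw [e1, hb, hy']
    have e2 : (p : ZMod (p ^ M)) ^ v * (p : ZMod (p ^ M)) ^ s * (p : ZMod (p ^ M)) ^ s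
        * (p : ZMod (p ^ M)) ^ (M - v - 1 - s) = 0 := by
      rw [← pow_add, ← pow_add, ← pow_add]
      apply pow_zero_of_le
      omega
    calc _ = - ((p : ZMod (p ^ M)) ^ v * (p : ZMod (p ^ M)) ^ s * (p : ZMod (p ^ M)) ^ s
        * (p : ZMod (p ^ M)) ^ (M - v - 1 - s)) * ((β : ZMod (p ^ M)) * y' * y' * ui g * g) := by
          ring
      _ = 0 := by rw [e2]; ring
  have h1 : ∀ g, phi A (b * u g) (y * ui g - (p : ZMod (p ^ M)))
      = ‖∑ i, chi (b * sA (A i) (y - (p : ZMod (p ^ M)))) * chi (g * κ i)‖ ^ 2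
        / (Fintype.card ι : ℝ) ^ 2 := by
    intro g
    unfold phi F
    congr 3
    apply Finset.sum_congr rfl
    intro i _
    rw [key_sA (A i) b y (u g) (ui g) _ (hui g) (hcond g), chi_add]
    congr 2
    rw [hκ, hu]
    ring
  simp_rw [h1]
  rw [← Finset.sum_div, parseval κ _ _ (fun i => norm_chi _)]
  · have : (Fintype.card ι : ℝ) ≠ 0 := by
      have : (0 : ℝ) < Fintype.card ι := by exact_mod_cast hq
      exact this.ne'
    field_simp
  · intro i j hij
    by_contra hne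
    apply hinj i j hne
    simp only [hκ] at hij
    have e3 : (p : ZMod (p ^ M)) ^ (M - 1 - s) *
        (sA (A i) (-(p : ZMod (p ^ M))) - sA (A j) (-(p : ZMod (p ^ M)))) = 0 := by
      have e4 : (β : ZMod (p ^ M)) * ((p : ZMod (p ^ M)) ^ (M - 1 - s) *
        (sA (A i) (-(p : ZMod (p ^ M))) - sA (A j) (-(p : ZMod (p ^ M))))) = 0 := by
        have e5 : (p : ZMod (p ^ M)) ^ (M - 1 - s)
            = (p : ZMod (p ^ M)) ^ v * (p : ZMod (p ^ M)) ^ (M - v - 1 - s) := by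
          rw [← pow_add]
          congr 1
          omega
        rw [e5]
        rw [hb] at hij
        linear_combination hij
      exact (Units.mul_right_eq_zero β).mp e4
    have e6 : ∀ i, sA (A i) (-(p : ZMod (p ^ M))) = ((sA (A i) (-(p : ℤ)) : ℤ) : ZMod (p ^ M)) := by
      intro i
      unfold sA
      push_cast
      apply Finset.sum_congr rfl
      intro r _
      have := map_asc (Int.castRingHom (ZMod (p ^ M))) (-(p : ℤ)) r
      simp only [eq_intCast, Int.cast_neg, Int.cast_natCast] at this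
      exact this.symm
    rw [e6, e6, ← Int.cast_sub] at e3
    have e7 : (((p : ℤ) ^ (M - 1 - s) * (sA (A i) (-(p : ℤ)) - sA (A j) (-(p : ℤ))) : ℤ) :
        ZMod (p ^ M)) = 0 := by
      push_cast
      push_cast at e3
      exact e3
    rw [ZMod.intCast_zmod_eq_zero_iff_dvd] at e7
    push_cast at e7
    have e8 : (p : ℤ) ^ M = (p : ℤ) ^ (M - 1 - s) * (p : ℤ) ^ (s + 1) := by
      rw [← pow_add]
      congr 1
      omega
    rw [e8] at e7
    have hp0 : (p : ℤ) ^ (M - 1 - s) ≠ 0 := pow_ne_zero _ (by exact_mod_cast hp.out.ne_zero)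
    exact (pow_dvd_pow _ (by omega)).trans (Int.dvd_of_mul_dvd_mul_left hp0 e7)

theorem T_step (A : ι → Finset ℕ) (hq : 0 < Fintype.card ι)
    (hinj : ∀ i j, i ≠ j → ¬ ((p : ℤ) ^ 2 ∣ sA (A i) (-(p : ℤ)) - sA (A j) (-(p : ℤ))))
    (k v D s : ℕ) (hs : 1 ≤ s) (hsD : s < D) (hv : v + D + 1 ≤ M)
    (c c' c'' : ZMod (p ^ M)) (hc : c = p * c'') (hc' : IsUnit c')
    (hcc : c + p = (p : ZMod (p ^ M)) ^ s * c') :
    T A (k + 1) v D c = T A k (v + s) D (c + (p : ZMod (p ^ M))) / (Fintype.card ι : ℝ) := by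
  have hM : 1 ≤ M := by omega
  have hp1 : p - 1 + 1 = p := Nat.sub_add_cancel hp.out.one_le
  have hunit : ∀ g : ZMod (p ^ M), IsUnit (1 + (p : ZMod (p ^ M)) ^ (M - v - 1 - s) * g) := by
    intro g
    have e : M - v - 1 - s = (M - v - 1 - s - 1) + 1 := by omega
    rw [e, pow_succ', mul_assoc]
    exact unit_add isUnit_one _
  set U : ZMod (p ^ M) → (ZMod (p ^ M))ˣ := fun g => (hunit g).unit with hU
  have hUv : ∀ g, (U g : ZMod (p ^ M)) = 1 + (p : ZMod (p ^ M)) ^ (M - v - 1 - s) * g :=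
    fun g => IsUnit.unit_spec _
  have hUi : ∀ g, (U g : ZMod (p ^ M)) * ((U g)⁻¹ : (ZMod (p ^ M))ˣ) = 1 := fun g => by simp
  set W : ZMod (p ^ M) → (ZMod (p ^ M))ˣ → ℝ := fun t β =>
    w p A k ((p : ZMod (p ^ M)) ^ v * (β : ZMod (p ^ M)) * asc (c + (p : ZMod (p ^ M)) ^ D * t) p)
        (c + (p : ZMod (p ^ M)) ^ D * t + (p : ZMod (p ^ M))) with hW
  have hpush : ∑ t, ∑ β, W t β = T A k (v + s) D (c + (p : ZMod (p ^ M))) :=
    T_push A k v D s hsD (by omega) c c' c'' hc hc' hcc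
  set G : ZMod (p ^ M) → (ZMod (p ^ M))ˣ → ℝ := fun t β =>
    phi A ((p : ZMod (p ^ M)) ^ v * (β : ZMod (p ^ M))) (c + (p : ZMod (p ^ M)) ^ D * t)
      * W t β with hG
  have hT : T A (k + 1) v D c = ∑ t, ∑ β, G t β := by
    unfold T
    rfl
  -- the action
  have hact : ∀ g : ZMod (p ^ M), ∑ t, ∑ β, G t β
      = ∑ t, ∑ β, G ((((U g)⁻¹ : (ZMod (p ^ M))ˣ) : ZMod (p ^ M)) *
        (t - g * ((p : ZMod (p ^ M)) ^ (M - v - 1 - D) * c'))) (U g * β) := by
    intro g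
    rw [← Equiv.sum_comp ((Equiv.subRight (g * ((p : ZMod (p ^ M)) ^ (M - v - 1 - D) * c'))).trans
      (Units.mulLeft ((U g)⁻¹))) (fun t => ∑ β, G t β)]
    apply Finset.sum_congr rfl
    intro t _
    rw [← Equiv.sum_comp (Equiv.mulLeft (U g)) (fun β => G _ β)]
    rfl
  have hterm : ∀ (g t : ZMod (p ^ M)) (β : (ZMod (p ^ M))ˣ),
      G ((((U g)⁻¹ : (ZMod (p ^ M))ˣ) : ZMod (p ^ M)) *
        (t - g * ((p : ZMod (p ^ M)) ^ (M - v - 1 - D) * c'))) (U g * β)
      = phi A ((p : ZMod (p ^ M)) ^ v * (β : ZMod (p ^ M)) * (U g : ZMod (p ^ M)))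
        ((c + (p : ZMod (p ^ M)) ^ D * t + p) * ((U g)⁻¹ : (ZMod (p ^ M))ˣ)
          - (p : ZMod (p ^ M))) * W t β := by
    intro g t β
    set y : ZMod (p ^ M) := c + (p : ZMod (p ^ M)) ^ D * t + p with hy
    set ui : ZMod (p ^ M) := (((U g)⁻¹ : (ZMod (p ^ M))ˣ) : ZMod (p ^ M)) with hui
    have hz : c + (p : ZMod (p ^ M)) ^ D *
        (ui * (t - g * ((p : ZMod (p ^ M)) ^ (M - v - 1 - D) * c')))
        = y * ui - (p : ZMod (p ^ M)) := by
      have e1 : (1 + (p : ZMod (p ^ M)) ^ (M - v - 1 - s) * g) * ui = 1 := by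
        rw [← hUv]
        exact hUi g
      have e2 : (p : ZMod (p ^ M)) ^ D * (p : ZMod (p ^ M)) ^ (M - v - 1 - D)
          = (p : ZMod (p ^ M)) ^ s * (p : ZMod (p ^ M)) ^ (M - v - 1 - s) := by
        rw [← pow_add, ← pow_add]
        congr 1
        omega
      have e3 : y = (p : ZMod (p ^ M)) ^ s * c' + (p : ZMod (p ^ M)) ^ D * t := by
        rw [hy, ← hcc]
        ring
      rw [e3]
      linear_combination hcc + (-(ui * g * c')) * e2 + (-((p : ZMod (p ^ M)) ^ s * c')) * e1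
    have hgoal1 : (p : ZMod (p ^ M)) ^ v * (((U g * β : (ZMod (p ^ M))ˣ)) : ZMod (p ^ M))
        = (p : ZMod (p ^ M)) ^ v * (β : ZMod (p ^ M)) * (U g : ZMod (p ^ M)) := by
      push_cast
      ring
    simp only [hG, hW]
    rw [hz, hgoal1]
    congr 1
    set b : ZMod (p ^ M) := (p : ZMod (p ^ M)) ^ v * (β : ZMod (p ^ M)) with hb
    have hcond : b * y * (y * ui - y) = 0 := by
      have h := hUi g
      rw [hUv g] at h
      have e1 : y * ui - y = - (y * ui * ((p : ZMod (p ^ M)) ^ (M - v - 1 - s) * g)) := by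
        linear_combination y * h
      have e3 : y = (p : ZMod (p ^ M)) ^ s * (c' + (p : ZMod (p ^ M)) ^ (D - s) * t) := by
        have e4 : (p : ZMod (p ^ M)) ^ D = (p : ZMod (p ^ M)) ^ s * (p : ZMod (p ^ M)) ^ (D - s) := by
          rw [← pow_add]
          congr 1
          omega
        rw [hy]
        linear_combination hcc + t * e4
      rw [e1, hb, e3]
      have e2 : (p : ZMod (p ^ M)) ^ v * (p : ZMod (p ^ M)) ^ s * (p : ZMod (p ^ M)) ^ s
          * (p : ZMod (p ^ M)) ^ (M - v - 1 - s) = 0 := by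
        rw [← pow_add, ← pow_add, ← pow_add]
        apply pow_zero_of_le
        omega
      linear_combination (-((β : ZMod (p ^ M)) * (c' + (p : ZMod (p ^ M)) ^ (D - s) * t) ^ 2
        * ui * g)) * e2
    have hyz : y - (((p - 1 + 1 : ℕ)) : ZMod (p ^ M)) = c + (p : ZMod (p ^ M)) ^ D * t := by
      rw [hp1, hy]
      ring
    have k1 := key_asc (p - 1) b y (U g : ZMod (p ^ M)) ui (hUi g) hcond
    rw [hyz] at k1
    rw [hp1] at k1
    rw [k1]
    apply w_congr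
    have k2 := key_move (p - 1) b y ui hcond
    rw [hyz, hp1] at k2
    rw [← k2]
    ring
  have hpM : ((p ^ M : ℕ) : ℝ) ≠ 0 := by
    exact_mod_cast pow_ne_zero M hp.out.ne_zero
  have hfin : ((p ^ M : ℕ) : ℝ) * T A (k + 1) v D c
      = ((p ^ M : ℕ) : ℝ) / (Fintype.card ι : ℝ) * ∑ t, ∑ β, W t β := by
    have h1 : ((p ^ M : ℕ) : ℝ) * T A (k + 1) v D c = ∑ g : ZMod (p ^ M), ∑ t, ∑ β, G t β := by
      rw [Finset.sum_const, Finset.card_univ, ZMod.card, nsmul_eq_mul, hT]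
    rw [h1]
    rw [Finset.sum_congr rfl (fun g _ => hact g)]
    simp_rw [hterm]
    rw [Finset.sum_comm, Finset.mul_sum]
    apply Finset.sum_congr rfl
    intro t _
    rw [Finset.sum_comm, Finset.mul_sum]
    apply Finset.sum_congr rfl
    intro β _
    rw [← Finset.sum_mul]
    congr 1
    apply sum_phi A hq hinj v s hs (by omega) _ _ β (fun g => (U g : ZMod (p ^ M)))
      (fun g => (((U g)⁻¹ : (ZMod (p ^ M))ˣ) : ZMod (p ^ M))) hUv hUi
    refine ⟨c' + (p : ZMod (p ^ M)) ^ (D - s) * t, ?_⟩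
    have e4 : (p : ZMod (p ^ M)) ^ D = (p : ZMod (p ^ M)) ^ s * (p : ZMod (p ^ M)) ^ (D - s) := by
      rw [← pow_add]
      congr 1
      omega
    linear_combination hcc + t * e4
  rw [hpush] at hfin
  have : ((p ^ M : ℕ) : ℝ) * T A (k + 1) v D c
      = ((p ^ M : ℕ) : ℝ) * (T A k (v + s) D (c + (p : ZMod (p ^ M))) / (Fintype.card ι : ℝ)) := by
    rw [hfin]
    ring
  exact mul_left_cancel₀ hpM this

end Step

end Pool.Agent.Helper191_Long
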