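import Pool.Agent.Helper191_Long.Low
import Pool.Agent.Helper191_Long.Fam

set_option autoImplicit false

namespace Pool.Agent.Helper191_Long

open Pool.Agent.Helper191_Fac

section Generic
variable {p M : ℕ} [hp : Fact p.Prime] {ι : Type*} [Fintype ι]

/-- The averaged bound over a set of naturals, at a shifted position. -/
theorem avg_set (A : ι → Finset ℕ) (hq : 0 < Fintype.card ι)
    (hinj : ∀ i j, i ≠ j → ¬ ((p : ℤ) ^ 2 ∣ sA (A i) (-(p : ℤ)) - sA (A j) (-(p : ℤ))))
    (S : Finset ℕ) (K k v D s : ℕ) (hD : 1 ≤ D) (hkK : k ≤ K)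
    (h : v + k + k / (p - 1) + 2 * D + 1 ≤ M) (hs : p ∣ s)
    (hS : ∀ m ∈ S, m < p ^ M ∧ p ∣ m ∧ m % p ^ D + s + p * k < p ^ D) :
    ∑ m ∈ S, W A K v (((m + s : ℕ)) : ZMod (p ^ M))
      ≤ (p : ℝ) ^ (2 * M - v) / (Fintype.card ι : ℝ) ^ k := by
  have hDM : D ≤ M := by
    have := Nat.zero_le (k / (p - 1))
    omega
  refine le_trans ?_ (avg (p := p) (M := M) A hq hinj k v D hD h)
  refine (Finset.sum_le_sum (fun m _ => W_anti A hkK v _)).trans ?_
  have hinj2 : Set.InjOn (fun m : ℕ => (((m + s : ℕ)) : ZMod (p ^ M))) (S : Set ℕ) := by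
    intro x hx y hy hxy
    change ((x + s : ℕ) : ZMod (p ^ M)) = ((y + s : ℕ) : ZMod (p ^ M)) at hxy
    rw [ZMod.natCast_eq_natCast_iff] at hxy
    have h1 : x ≡ y [MOD p ^ M] := Nat.ModEq.add_right_cancel' s hxy
    exact Nat.ModEq.eq_of_lt_of_lt h1 (hS x hx).1 (hS y hy).1
  rw [← Finset.sum_image (g := fun m : ℕ => (((m + s : ℕ)) : ZMod (p ^ M)))
    (f := fun z => W A k v z) hinj2]
  apply Finset.sum_le_sum_of_subset_of_nonneg
  · intro z hz
    rw [Finset.mem_image] at hz
    obtain ⟨m, hm, rfl⟩ := hz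
    obtain ⟨h1, h2, h3⟩ := hS m hm
    rw [Finset.mem_filter]
    refine ⟨Finset.mem_univ _, ?_, ?_⟩
    · rw [ZMod.val_natCast, Nat.dvd_mod_iff (dvd_pow_self p (by omega))]
      exact dvd_add h2 hs
    · rw [ZMod.val_natCast, Nat.mod_mod_of_dvd _ (pow_dvd_pow p hDM)]
      have hnn := Nat.zero_le (m % p ^ D)
      have hnn2 := Nat.zero_le (p * k)
      have : (m + s) % p ^ D = m % p ^ D + s := by
        rw [Nat.add_mod, Nat.mod_eq_of_lt (show s < p ^ D by omega), Nat.mod_eq_of_lt (by omega)]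
      rw [this]
      exact h3
  · intro z _ _
    exact W_nonneg A k v z

omit hp in
theorem count_mod (P : ℕ → Prop) [DecidablePred P] {D : ℕ} (hDM : D ≤ M) :
    ((Finset.range (p ^ M)).filter (fun m => P (m % p ^ D))).card
      = p ^ (M - D) * ((Finset.range (p ^ D)).filter P).card := by
  have h1 := sum_periodic (fun m => if P (m % p ^ D) then (1 : ℝ) else 0) (p ^ D) (p ^ (M - D))
    (by intro n; simp)
  have e : p ^ D * p ^ (M - D) = p ^ M := by
    rw [← pow_add]
    congr 1
    omega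
  rw [e] at h1
  have h2 : (((Finset.range (p ^ M)).filter (fun m => P (m % p ^ D))).card : ℝ)
      = ((p ^ (M - D) * ((Finset.range (p ^ D)).filter P).card : ℕ) : ℝ) := by
    rw [Finset.card_filter]
    push_cast
    rw [h1]
    congr 1
    · push_cast
      rfl
    · rw [Finset.card_filter]
      push_cast
      apply Finset.sum_congr rfl
      intro m hm
      rw [Finset.mem_range] at hm
      rw [Nat.mod_eq_of_lt hm]
  exact_mod_cast h2

theorem count_top {D x : ℕ} (hDM : D ≤ M) :
    ((Finset.range (p ^ M)).filter (fun m => ¬ (m % p ^ D + x < p ^ D))).card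
      ≤ p ^ (M - D) * x := by
  rw [count_mod (p := p) (M := M) (fun r => ¬ (r + x < p ^ D)) hDM]
  apply Nat.mul_le_mul_left
  have : (Finset.range (p ^ D)).filter (fun r => ¬ (r + x < p ^ D))
      ⊆ Finset.Ico (p ^ D - x) (p ^ D) := by
    intro r hr
    rw [Finset.mem_filter, Finset.mem_range] at hr
    rw [Finset.mem_Ico]
    omega
  refine (Finset.card_le_card this).trans ?_
  rw [Nat.card_Ico]
  omega

theorem count_sq (hM : 2 ≤ M) :
    ((Finset.range (p ^ M)).filter (fun m => p ^ 2 ∣ m)).card = p ^ (M - 2) := by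
  have h1 := count_mod (p := p) (M := M) (fun r => r = 0) hM
  have h2 : (Finset.range (p ^ M)).filter (fun m => p ^ 2 ∣ m)
      = (Finset.range (p ^ M)).filter (fun m => m % p ^ 2 = 0) := by
    apply Finset.filter_congr
    intro m _
    exact Nat.dvd_iff_mod_eq_zero
  rw [h2, h1]
  have h3 : (Finset.range (p ^ 2)).filter (fun r => r = 0) = {0} := by
    ext r
    rw [Finset.mem_filter, Finset.mem_range, Finset.mem_singleton]
    constructor
    · exact fun h => h.2
    · rintro rfl
      exact ⟨pow_pos hp.out.pos 2, rfl⟩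
  rw [h3]
  simp

theorem V_mod {D m K : ℕ} (h : m % p ^ D + p * K < p ^ D) :
    V p m K = V p (m % p ^ D) K := by
  unfold V
  apply Finset.sum_congr rfl
  intro i hi
  rw [Finset.mem_range] at hi
  have hp0 : 0 < p := hp.out.pos
  set r := m % p ^ D with hr
  have hlt : r + p * (i + 1) < p ^ D := by
    have : p * (i + 1) ≤ p * K := Nat.mul_le_mul_left _ hi
    omega
  have hpos : 0 < p * (i + 1) := by positivity
  have e : m + p * (i + 1) = r + p * (i + 1) + p ^ D * (m / p ^ D) := by
    have := Nat.mod_add_div m (p ^ D)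
    omega
  rw [e]
  by_cases h0 : m / p ^ D = 0
  · rw [h0]
    simp
  · have h1 : padicValNat p (r + p * (i + 1)) < D := by
      rw [← Nat.pow_lt_pow_iff_right hp.out.one_lt]
      exact lt_of_le_of_lt (Nat.le_of_dvd (Nat.add_pos_right _ hpos) pow_padicValNat_dvd) hlt
    set x := r + p * (i + 1) with hx
    have hx0 : x ≠ 0 := (Nat.add_pos_right _ hpos).ne'
    have hsum0 : x + p ^ D * (m / p ^ D) ≠ 0 := (Nat.add_pos_left (Nat.pos_of_ne_zero hx0) _).ne'
    apply le_antisymm
    · by_contra hlt2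
      push Not at hlt2
      have h2 : p ^ (padicValNat p x + 1) ∣ x + p ^ D * (m / p ^ D) :=
        (pow_dvd_pow p hlt2).trans pow_padicValNat_dvd
      have h3 : p ^ (padicValNat p x + 1) ∣ p ^ D * (m / p ^ D) :=
        (pow_dvd_pow p h1).mul_right _
      have h4 : p ^ (padicValNat p x + 1) ∣ x := (Nat.dvd_add_left h3).mp h2
      exact pow_succ_padicValNat_not_dvd hx0 h4
    · rw [← padicValNat_dvd_iff_le hsum0]
      exact dvd_add pow_padicValNat_dvd ((pow_dvd_pow p h1.le).mul_right _)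

end Generic

end Pool.Agent.Helper191_Long
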