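import Pool.Agent.Helper191_Long.Cover
import Pool.Agent.Helper191_Fac.Two

set_option autoImplicit false

namespace Pool.Agent.Helper191_Long

open Pool.Agent.Helper191_Fac

theorem factorial_add (m r : ℕ) :
    (((m + r).factorial : ℕ) : ℤ) = ((m.factorial : ℕ) : ℤ) * asc (m : ℤ) r := by
  rw [asc_nat]
  exact_mod_cast congrArg (Nat.cast (R := ℤ)) (Nat.factorial_mul_ascFactorial m r).symm

theorem cast_asc {n : ℕ} (m r : ℕ) :
    ((asc (m : ℤ) r : ℤ) : ZMod n) = asc (m : ZMod n) r := by
  have := map_asc (Int.castRingHom (ZMod n)) (m : ℤ) r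
  simpa using this

/-- Every residue is reached: the sets with least element `a` and elements at most `m`
realise all residues times `m!` modulo the `p`-part of `m!` times `p ^ e`. -/
def Full (p a m e : ℕ) : Prop :=
  ∀ y : ℤ, ∃ A : Finset ℕ, a ∈ A ∧ (∀ t ∈ A, a ≤ t ∧ t ≤ m) ∧
    ((p : ℤ) ^ (padicValNat p m.factorial + e) ∣
      (∑ t ∈ A, ((t.factorial : ℕ) : ℤ)) - y * ((m.factorial : ℕ) : ℤ))

section Window
variable {p M : ℕ} [hp : Fact p.Prime] {ι : Type*} [Fintype ι]

theorem full_zero (p m : ℕ) : Full p m m 0 := by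
  intro y
  refine ⟨{m}, by simp, by simp, ?_⟩
  rw [Finset.sum_singleton]
  have : (p : ℤ) ^ (padicValNat p m.factorial + 0) ∣ ((m.factorial : ℕ) : ℤ) := by
    rw [add_zero]
    exact_mod_cast (pow_padicValNat_dvd : p ^ padicValNat p m.factorial ∣ m.factorial)
  exact dvd_sub this (this.mul_left y)

theorem realize (A : ι → Finset ℕ) (hA : ∀ i, ∀ r ∈ A i, r < p) (K m : ℕ)
    (v : ZMod (p ^ M)) (hv : cnt p A K (m : ZMod (p ^ M)) v ≠ 0) :
    ∃ T : Finset ℕ, (∀ t ∈ T, m ≤ t ∧ t < m + p * K ∧ ∃ i, (t - m) % p ∈ A i) ∧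
      ∃ V : ℤ, ∑ t ∈ T, ((t.factorial : ℕ) : ℤ) = ((m.factorial : ℕ) : ℤ) * V ∧
        (V : ZMod (p ^ M)) = v := by
  classical
  induction K generalizing m v with
  | zero =>
    refine ⟨∅, by simp, 0, by simp, ?_⟩
    simp only [cnt] at hv
    have : v = 0 := by
      by_contra h
      exact hv (if_neg h)
    rw [this]
    simp
  | succ K ih =>
    simp only [cnt] at hv
    obtain ⟨i, _, hi⟩ := Finset.exists_ne_zero_of_sum_ne_zero hv
    obtain ⟨u, _, hu⟩ := Finset.exists_ne_zero_of_sum_ne_zero hi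
    have hval : sA (A i) (m : ZMod (p ^ M)) + asc (m : ZMod (p ^ M)) p * u = v := by
      by_contra h
      exact hu (if_neg h)
    rw [if_pos hval] at hu
    have hcast : (m : ZMod (p ^ M)) + (p : ZMod (p ^ M)) = ((m + p : ℕ) : ZMod (p ^ M)) := by
      push_cast
      ring
    rw [hcast] at hu
    obtain ⟨T, hT, V, hV, hVu⟩ := ih (m + p) u hu
    refine ⟨(A i).image (fun r => m + r) ∪ T, ?_, sA (A i) (m : ℤ) + asc (m : ℤ) p * V, ?_, ?_⟩
    · intro t ht
      rw [Finset.mem_union, Finset.mem_image] at ht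
      rcases ht with ⟨r, hr, rfl⟩ | ht
      · have := hA i r hr
        refine ⟨by omega, ?_, i, ?_⟩
        · have : p * (K + 1) = p * K + p := by ring
          omega
        · rw [Nat.add_sub_cancel_left, Nat.mod_eq_of_lt this]
          exact hr
      · obtain ⟨h1, h2, j, hj⟩ := hT t ht
        refine ⟨by omega, ?_, j, ?_⟩
        · have : p * (K + 1) = p * K + p := by ring
          omega
        · rw [show t - m = t - (m + p) + p by omega, Nat.add_mod_right]
          exact hj
    · have hdisj : Disjoint ((A i).image (fun r => m + r)) T := by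
        rw [Finset.disjoint_left]
        intro t ht ht2
        rw [Finset.mem_image] at ht
        obtain ⟨r, hr, rfl⟩ := ht
        have := hA i r hr
        have := (hT _ ht2).1
        omega
      rw [Finset.sum_union hdisj, hV, Finset.sum_image (by
        intro x _ y _ h
        exact Nat.add_left_cancel h)]
      rw [factorial_add m p]
      simp_rw [factorial_add m]
      rw [← Finset.mul_sum]
      unfold sA
      ring
    · rw [← hval]
      push_cast
      rw [cast_asc, hVu]
      congr 1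
      unfold sA
      push_cast
      exact Finset.sum_congr rfl fun r _ => cast_asc m r

theorem exists_lift (m : ℕ) (S : ℤ) (hS : (p : ℤ) ^ padicValNat p m.factorial ∣ S) :
    ∃ x : ℤ, (p : ℤ) ^ (padicValNat p m.factorial + M) ∣ S - x * ((m.factorial : ℕ) : ℤ) := by
  have h0 : m.factorial ≠ 0 := Nat.factorial_ne_zero m
  obtain ⟨m', hm'⟩ : p ^ padicValNat p m.factorial ∣ m.factorial := pow_padicValNat_dvd
  obtain ⟨z, hz⟩ := hS
  have hcop : ¬ p ∣ m' := by
    intro h
    have : p ^ (padicValNat p m.factorial + 1) ∣ m.factorial := by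
      conv_rhs => rw [hm']
      rw [pow_succ]
      exact mul_dvd_mul_left _ h
    exact pow_succ_padicValNat_not_dvd h0 this
  have hc : IsCoprime (m' : ℤ) ((p ^ M : ℕ) : ℤ) := by
    rw [Nat.isCoprime_iff_coprime]
    exact (Nat.Coprime.pow_right _ ((Nat.Prime.coprime_iff_not_dvd hp.out).mpr hcop).symm)
  obtain ⟨u, v, huv⟩ := hc
  refine ⟨u * z, ?_⟩
  have hm2 : ((m.factorial : ℕ) : ℤ) = (p : ℤ) ^ padicValNat p m.factorial * (m' : ℤ) := by
    exact_mod_cast hm'
  rw [hz, hm2, pow_add]
  have : (p : ℤ) ^ padicValNat p m.factorial * z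
      - u * z * ((p : ℤ) ^ padicValNat p m.factorial * (m' : ℤ))
      = (p : ℤ) ^ padicValNat p m.factorial * (p : ℤ) ^ M * (v * z) := by
    push_cast at huv
    linear_combination (-((p : ℤ) ^ padicValNat p m.factorial * z)) * huv
  rw [this]
  exact dvd_mul_right _ _

theorem cancel_fact (m e : ℕ) (x : ℤ)
    (h : (p : ℤ) ^ (padicValNat p m.factorial + e) ∣ x * ((m.factorial : ℕ) : ℤ)) :
    (p : ℤ) ^ e ∣ x := by
  have h0 : m.factorial ≠ 0 := Nat.factorial_ne_zero m
  obtain ⟨m', hm'⟩ : p ^ padicValNat p m.factorial ∣ m.factorial := pow_padicValNat_dvd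
  have hcop : ¬ p ∣ m' := by
    intro h
    have : p ^ (padicValNat p m.factorial + 1) ∣ m.factorial := by
      conv_rhs => rw [hm']
      rw [pow_succ]
      exact mul_dvd_mul_left _ h
    exact pow_succ_padicValNat_not_dvd h0 this
  have hm2 : ((m.factorial : ℕ) : ℤ) = (p : ℤ) ^ padicValNat p m.factorial * (m' : ℤ) := by
    exact_mod_cast hm'
  rw [hm2, pow_add, show x * ((p : ℤ) ^ padicValNat p m.factorial * (m' : ℤ))
    = (p : ℤ) ^ padicValNat p m.factorial * (x * m') by ring] at h
  have hp0 : (p : ℤ) ^ padicValNat p m.factorial ≠ 0 :=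
    pow_ne_zero _ (by exact_mod_cast hp.out.ne_zero)
  have h2 := Int.dvd_of_mul_dvd_mul_left hp0 h
  have hc : IsCoprime ((p : ℤ) ^ e) (m' : ℤ) := by
    have : IsCoprime (((p ^ e : ℕ)) : ℤ) (m' : ℤ) := by
      rw [Nat.isCoprime_iff_coprime]
      exact Nat.Coprime.pow_left _ ((Nat.Prime.coprime_iff_not_dvd hp.out).mpr hcop)
    push_cast at this
    exact this
  exact hc.dvd_of_dvd_mul_right h2

theorem valuation_factorial (m K : ℕ) (hm : p ∣ m) :
    padicValNat p (m + p * K).factorial = padicValNat p m.factorial + V p m K := by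
  induction K generalizing m with
  | zero => simp [V]
  | succ K ih =>
    have h1 : m + p * (K + 1) = (m + p) + p * K := by ring
    rw [h1, ih (m + p) ((Nat.dvd_add_iff_left (dvd_refl p)).mp hm), V_succ]
    have hp0 : 0 < p := hp.out.pos
    have h2 : ∀ r, r < p → padicValNat p (m + r).factorial = padicValNat p m.factorial := by
      intro r
      induction r with
      | zero => intro _; rfl
      | succ r ihr =>
        intro hr
        rw [← add_assoc, Nat.factorial_succ, padicValNat.mul (by omega)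
          (Nat.factorial_ne_zero _), ihr (by omega)]
        have : padicValNat p (m + r + 1) = 0 := by
          apply padicValNat.eq_zero_of_not_dvd
          intro h
          rw [add_assoc, Nat.dvd_add_right hm] at h
          exact absurd (Nat.le_of_dvd (by omega) h) (by omega)
        omega
    have h3 : padicValNat p (m + p).factorial
        = padicValNat p m.factorial + padicValNat p (m + p) := by
      have e : m + p = (m + (p - 1)) + 1 := by omega
      conv_lhs => rw [e, Nat.factorial_succ]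
      rw [padicValNat.mul (by omega) (Nat.factorial_ne_zero _), h2 (p - 1) (by omega), ← e]
      ring
    omega

theorem window (A B : ι → Finset ℕ) (hq : 0 < Fintype.card ι)
    (hA : ∀ i, ∀ r ∈ A i, r < p) (hB : ∀ i, ∀ r ∈ B i, r < p)
    (hA0 : ∀ i, 0 ∉ A i) (hB0 : ∀ i, 0 ∉ B i) (hAB : ∀ i j, Disjoint (A i) (B j))
    (a m K e' e : ℕ) (he' : e' ≤ M) (hm : p ∣ m) (hV : V p m K + e ≤ M)
    (hw : ∑ b ∈ Finset.univ.filter (fun b : ZMod (p ^ M) => ¬ p ^ (M - e') ∣ b.val),
      (w p A K b (m : ZMod (p ^ M)) + w p B K b (m : ZMod (p ^ M))) < 2)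
    (ham : a ≤ m) (hfull : Full p a m e') : Full p a (m + p * K) e := by
  classical
  have hlift : ∀ r : ℕ, ∃ (S : Finset ℕ) (x : ℤ), a ∈ S ∧ (∀ t ∈ S, a ≤ t ∧ t ≤ m) ∧
      (p : ℤ) ^ (padicValNat p m.factorial + M) ∣
        (∑ t ∈ S, ((t.factorial : ℕ) : ℤ)) - x * ((m.factorial : ℕ) : ℤ) ∧
      (p : ℤ) ^ e' ∣ x - r := by
    intro r
    obtain ⟨S, haS, hS, hdvd⟩ := hfull r
    have h1 : (p : ℤ) ^ padicValNat p m.factorial ∣ ∑ t ∈ S, ((t.factorial : ℕ) : ℤ) := by
      have h2 : (p : ℤ) ^ padicValNat p m.factorial ∣ (r : ℤ) * ((m.factorial : ℕ) : ℤ) := by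
        apply Dvd.dvd.mul_left
        exact_mod_cast (pow_padicValNat_dvd : p ^ padicValNat p m.factorial ∣ m.factorial)
      have h3 := (pow_dvd_pow (p : ℤ) (Nat.le_add_right _ e')).trans hdvd
      have := dvd_add h3 h2
      rwa [sub_add_cancel] at this
    obtain ⟨x, hx⟩ := exists_lift (M := M) m _ h1
    refine ⟨S, x, haS, hS, hx, ?_⟩
    apply cancel_fact m e'
    have h4 := (pow_dvd_pow (p : ℤ) (show padicValNat p m.factorial + e' ≤
      padicValNat p m.factorial + M by omega)).trans hx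
    have := dvd_sub hdvd h4
    rw [show (∑ t ∈ S, ((t.factorial : ℕ) : ℤ)) - r * ((m.factorial : ℕ) : ℤ)
      - ((∑ t ∈ S, ((t.factorial : ℕ) : ℤ)) - x * ((m.factorial : ℕ) : ℤ))
      = (x - r) * ((m.factorial : ℕ) : ℤ) by ring] at this
    exact this
  choose S x haS hS hx hxr using hlift
  intro y
  obtain ⟨r, hr, α, β, hα, hβ, hsum⟩ := cover A B hq K e' he' (m : ZMod (p ^ M))
    (fun r => (x r : ZMod (p ^ M))) (by
      intro r _
      obtain ⟨t, ht⟩ := hxr r
      refine ⟨(t : ZMod (p ^ M)), ?_⟩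
      have : x r = r + (p : ℤ) ^ e' * t := by linarith
      rw [this]
      push_cast
      ring) hw ((y * asc (m : ℤ) (p * K) : ℤ) : ZMod (p ^ M))
  obtain ⟨TA, hTA, VA, hVA, hVA2⟩ := realize A hA K m α hα
  obtain ⟨TB, hTB, VB, hVB, hVB2⟩ := realize B hB K m β hβ
  have hgt : ∀ t ∈ TA, m < t := by
    intro t ht
    obtain ⟨h1, _, i, hi⟩ := hTA t ht
    rcases h1.lt_or_eq with h | h
    · exact h
    · rw [← h, Nat.sub_self, Nat.zero_mod] at hi
      exact absurd hi (hA0 i)
  have hgtB : ∀ t ∈ TB, m < t := by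
    intro t ht
    obtain ⟨h1, _, i, hi⟩ := hTB t ht
    rcases h1.lt_or_eq with h | h
    · exact h
    · rw [← h, Nat.sub_self, Nat.zero_mod] at hi
      exact absurd hi (hB0 i)
  have hd1 : Disjoint TA TB := by
    rw [Finset.disjoint_left]
    intro t ht ht2
    obtain ⟨_, _, i, hi⟩ := hTA t ht
    obtain ⟨_, _, j, hj⟩ := hTB t ht2
    exact (Finset.disjoint_left.mp (hAB i j)) hi hj
  have hd2 : Disjoint (S r) (TA ∪ TB) := by
    rw [Finset.disjoint_left]
    intro t ht ht2
    rw [Finset.mem_union] at ht2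
    have := (hS r t ht).2
    rcases ht2 with h | h
    · have := hgt t h
      omega
    · have := hgtB t h
      omega
  refine ⟨S r ∪ (TA ∪ TB), Finset.mem_union_left _ (haS r), ?_, ?_⟩
  · intro t ht
    rw [Finset.mem_union, Finset.mem_union] at ht
    rcases ht with h | h | h
    · have := hS r t h
      omega
    · have h1 := hgt t h
      have h2 := (hTA t h).2.1
      omega
    · have h1 := hgtB t h
      have h2 := (hTB t h).2.1
      omega
  · rw [Finset.sum_union hd2, Finset.sum_union hd1, hVA, hVB, valuation_factorial m K hm,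
      factorial_add]
    have hle : padicValNat p m.factorial + V p m K + e ≤ padicValNat p m.factorial + M := by omega
    refine (pow_dvd_pow (p : ℤ) hle).trans ?_
    have hmod : ((p ^ M : ℕ) : ℤ) ∣ x r + VA + VB - y * asc (m : ℤ) (p * K) := by
      rw [← ZMod.intCast_zmod_eq_zero_iff_dvd]
      push_cast
      rw [hVA2, hVB2]
      push_cast at hsum
      rw [← hsum]
      ring
    have h1 : (p : ℤ) ^ (padicValNat p m.factorial + M) ∣
        ((m.factorial : ℕ) : ℤ) * (x r + VA + VB - y * asc (m : ℤ) (p * K)) := by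
      rw [pow_add]
      apply mul_dvd_mul
      · exact_mod_cast (pow_padicValNat_dvd : p ^ padicValNat p m.factorial ∣ m.factorial)
      · exact_mod_cast hmod
    have := dvd_add (hx r) h1
    refine this.trans (dvd_of_eq ?_)
    ring

end Window

end Pool.Agent.Helper191_Long
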